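import Pool.Agent.Run7.h763.QW.K2c

set_option autoImplicit false

/-!
Piece K2 of project QW, fourth part: the continuum limit of the kernel.
-/

open MeasureTheory Filter Topology

namespace Run7.h763.QW

open Run7.h630.QF Run7.h630.QW

noncomputable section

/-! ### Copies of the definitions of the interface -/

def xm' (N k l : ℕ) (ι : Ix N) : ℝ :=
  (2 - 2 * Real.cos (mom N k ι 2 / l)) + (2 - 2 * Real.cos (mom N k ι 3 / l))

def Al' (N k l m : ℕ) (a : ℤ) (j : Ix N) : ℝ := (2 - 2 * Real.cos (Real.pi * a / m)) + xm' N k l j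

def fac' (N k l m : ℕ) (s : ℝ) (a : ℤ) (j : Ix N) : Fin 4 → ℂ :=
  ![((Real.exp (-(s * ol' (Al' N k l m a j))) - 1 : ℝ) : ℂ),
    Complex.exp (Complex.I * ((Real.pi * a / m : ℝ) : ℂ)) - 1,
    Complex.exp (Complex.I * ((mom N k j 2 / l : ℝ) : ℂ)) - 1,
    Complex.exp (Complex.I * ((mom N k j 3 / l : ℝ) : ℂ)) - 1]

def fab' (N k l m : ℕ) (s : ℝ) (a : ℤ) (j : Ix N) : Fin 4 → ℂ :=
  ![((Real.exp (s * ol' (Al' N k l m a j)) - 1 : ℝ) : ℂ),
    Complex.exp (-(Complex.I * ((Real.pi * a / m : ℝ) : ℂ))) - 1,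
    Complex.exp (-(Complex.I * ((mom N k j 2 / l : ℝ) : ℂ))) - 1,
    Complex.exp (-(Complex.I * ((mom N k j 3 / l : ℝ) : ℂ))) - 1]

def Wi' (l : ℕ) : Finset (ℤ × ℤ) :=
  Finset.Ico (-((l / 2 : ℕ) : ℤ)) (-((l / 2 : ℕ) : ℤ) + l) ×ˢ
    Finset.Ico (-((l / 2 : ℕ) : ℤ)) (-((l / 2 : ℕ) : ℤ) + l)

def LS' (N k l m : ℕ) (α : Fin N × Fin N) (i j i' j' : Fin 4) (t z y y' : ℤ) : ℂ :=
  ((2 * m * l ^ 2 : ℝ) : ℂ)⁻¹ * ∑ a ∈ Finset.Ico (-(m : ℤ)) m, ∑ c ∈ Wi' l,
    Complex.exp (Complex.I * ((Real.pi * a * z / m + (mom N k (α, c) 2 * y +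
      mom N k (α, c) 3 * y') / l : ℝ) : ℂ)) *
    (((Real.exp (-(ol' (Al' N k l m a (α, c)) * t)) : ℝ) : ℂ) *
        tn (fac' N k l m 1 a (α, c)) (fab' N k l m 1 a (α, c)) i j i' j' +
      ((Real.exp (-(ol' (Al' N k l m a (α, c)) * (2 * m - t))) : ℝ) : ℂ) *
        tn (fac' N k l m (-1) a (α, c)) (fab' N k l m (-1) a (α, c)) i j i' j') /
    ((2 * Real.sinh (ol' (Al' N k l m a (α, c))) *
      (1 - Real.exp (-(2 * m * ol' (Al' N k l m a (α, c))))) : ℝ) : ℂ)

/-- the term, written as in the first part -/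
def tt (N k l m : ℕ) (α : Fin N × Fin N) (i j i' j' : Fin 4) (t z y y' : ℤ) (c : ℤ × ℤ) (a : ℤ) : ℂ :=
  tm (Real.pi * a * z / m + (mom N k (α, c) 2 * y + mom N k (α, c) 3 * y') / l) t m (Real.pi * a / m)
    (mom N k (α, c) 2 / l) (mom N k (α, c) 3 / l) i j i' j'

theorem LS_eq (N k l m : ℕ) (α : Fin N × Fin N) (i j i' j' : Fin 4) (t z y y' : ℤ) :
    LS' N k l m α i j i' j' t z y y' = ((2 * m * l ^ 2 : ℝ) : ℂ)⁻¹ *
      ∑ a ∈ Finset.Ico (-(m : ℤ)) m, ∑ c ∈ Wi' l, tt N k l m α i j i' j' t z y y' c a := rfl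

/-! ### The momenta -/

theorem mom2 (N k : ℕ) (α : Fin N × Fin N) (c : ℤ × ℤ) :
    mom N k (α, c) 2 = 2 * Real.pi * (c.1 - k * ((α.2 : ℕ) : ℝ) / N) := rfl

theorem mom3 (N k : ℕ) (α : Fin N × Fin N) (c : ℤ × ℤ) :
    mom N k (α, c) 3 = 2 * Real.pi * (c.2 + k * ((α.1 : ℕ) : ℝ) / N) := rfl

theorem frac_le (N k : ℕ) [NeZero N] (a : Fin N) : (k : ℝ) * ((a : ℕ) : ℝ) / N ≤ k := by
  have hN : (0 : ℝ) < N := by exact_mod_cast NeZero.pos N
  rw [div_le_iff₀ hN]
  have : ((a : ℕ) : ℝ) ≤ N := by exact_mod_cast a.2.le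
  gcongr

theorem mom2_near (N k : ℕ) [NeZero N] (α : Fin N × Fin N) (c : ℤ × ℤ) :
    |mom N k (α, c) 2 - 2 * Real.pi * c.1| ≤ 2 * Real.pi * k := by
  rw [mom2]
  have e : 2 * Real.pi * ((c.1 : ℝ) - k * ((α.2 : ℕ) : ℝ) / N) - 2 * Real.pi * c.1 =
      -(2 * Real.pi * (k * ((α.2 : ℕ) : ℝ) / N)) := by ring
  rw [e, abs_neg, abs_of_nonneg (by positivity)]
  have := frac_le N k α.2
  gcongr

theorem mom3_near (N k : ℕ) [NeZero N] (α : Fin N × Fin N) (c : ℤ × ℤ) :
    |mom N k (α, c) 3 - 2 * Real.pi * c.2| ≤ 2 * Real.pi * k := by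
  rw [mom3]
  have e : 2 * Real.pi * ((c.2 : ℝ) + k * ((α.1 : ℕ) : ℝ) / N) - 2 * Real.pi * c.2 =
      2 * Real.pi * (k * ((α.1 : ℕ) : ℝ) / N) := by ring
  rw [e, abs_of_nonneg (by positivity)]
  have := frac_le N k α.1
  gcongr

theorem int_gap {N : ℕ} [NeZero N] {k : ℕ} (hk : Nat.Coprime k N) {a : Fin N} (ha : a ≠ 0) (u : ℤ) :
    (1 : ℝ) / N ≤ |(u : ℝ) - k * ((a : ℕ) : ℝ) / N| := by
  have hN : (0 : ℝ) < N := by exact_mod_cast NeZero.pos N
  have h1 : (u * N - k * (a : ℕ) : ℤ) ≠ 0 := by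
    intro h
    have h2 : (N : ℤ) ∣ ((k * (a : ℕ) : ℕ) : ℤ) := ⟨u, by push_cast; linarith⟩
    have h3 : N ∣ k * (a : ℕ) := by exact_mod_cast h2
    have h4 : N ∣ (a : ℕ) := (hk.symm).dvd_of_dvd_mul_left h3
    have h5 : (a : ℕ) = 0 := Nat.eq_zero_of_dvd_of_lt h4 a.2
    exact ha (Fin.ext (by simpa using h5))
  have h6 : (1 : ℝ) ≤ |((u * N - k * (a : ℕ) : ℤ) : ℝ)| := by
    have := Int.one_le_abs h1
    exact_mod_cast this
  have h7 : ((u * N - k * (a : ℕ) : ℤ) : ℝ) = ((u : ℝ) - k * ((a : ℕ) : ℝ) / N) * N := by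
    push_cast
    field_simp
  rw [h7, abs_mul, abs_of_pos hN] at h6
  rw [div_le_iff₀ hN]
  exact h6

theorem gap (N k : ℕ) [NeZero N] (hk : Nat.Coprime k N) (α : Fin N × Fin N) (hα : α ≠ (0, 0)) (c : ℤ × ℤ)
    (p : ℝ) : 1 / (N : ℝ) ≤ rr p (mom N k (α, c) 2) (mom N k (α, c) 3) := by
  obtain ⟨-, a2, a3⟩ := abs_le_rr p (mom N k (α, c) 2) (mom N k (α, c) 3)
  have hpi : 1 ≤ 2 * Real.pi := by linarith [Real.pi_gt_three]
  by_cases h : α.2 = 0
  · have h' : α.1 ≠ 0 := fun e => hα (Prod.ext e h)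
    refine le_trans ?_ a3
    rw [mom3, abs_mul, abs_of_pos (by positivity)]
    have h1 := int_gap hk h' (-c.2)
    have h2 : |((-c.2 : ℤ) : ℝ) - k * ((α.1 : ℕ) : ℝ) / N| = |(c.2 : ℝ) + k * ((α.1 : ℕ) : ℝ) / N| := by
      rw [← abs_neg]
      congr 1
      push_cast
      ring
    rw [h2] at h1
    exact h1.trans (le_mul_of_one_le_left (abs_nonneg _) hpi)
  · refine le_trans ?_ a2
    rw [mom2, abs_mul, abs_of_pos (by positivity)]
    exact (int_gap hk h c.1).trans (le_mul_of_one_le_left (abs_nonneg _) hpi)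

theorem Wi_le {l : ℕ} {c : ℤ × ℤ} (hc : c ∈ Wi' l) : |(c.1 : ℝ)| ≤ l / 2 ∧ |(c.2 : ℝ)| ≤ l / 2 := by
  unfold Wi' at hc
  rw [Finset.mem_product, Finset.mem_Ico, Finset.mem_Ico] at hc
  have hk : ∀ u : ℤ, -((l / 2 : ℕ) : ℤ) ≤ u → u < -((l / 2 : ℕ) : ℤ) + l → |(u : ℝ)| ≤ l / 2 := by
    intro u h1 h2
    have h3 : -(l : ℤ) ≤ 2 * u := by omega
    have h4 : 2 * u ≤ l := by omega
    have h5 : -(l : ℝ) ≤ 2 * u := by exact_mod_cast h3
    have h6 : 2 * (u : ℝ) ≤ l := by exact_mod_cast h4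
    rw [abs_le]
    constructor <;> linarith
  exact ⟨hk _ hc.1.1 hc.1.2, hk _ hc.2.1 hc.2.2⟩

theorem mem_Wi {l : ℕ} {c : ℤ × ℤ} (h1 : 2 * (|c.1| + |c.2|) + 4 ≤ l) : c ∈ Wi' l := by
  unfold Wi'
  rw [Finset.mem_product, Finset.mem_Ico, Finset.mem_Ico]
  have a1 := abs_nonneg c.1
  have a2 := abs_nonneg c.2
  have b1 := le_abs_self c.1
  have b2 := le_abs_self c.2
  have b3 := neg_abs_le c.1
  have b4 := neg_abs_le c.2
  refine ⟨⟨?_, ?_⟩, ⟨?_, ?_⟩⟩ <;> omega

theorem Sv_sym (N k : ℕ) (j : Ix N) (p : ℝ) : Sv 1 p (mom N k j 2) (mom N k j 3) = sym N k j p := by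
  funext i
  fin_cases i
  · show ((-(1 * rr p (mom N k j 2) (mom N k j 3)) : ℝ) : ℂ) = -(freq N k j p : ℂ)
    rw [one_mul, Complex.ofReal_neg]
    rfl
  · rfl
  · rfl
  · rfl

theorem twoPoint_eq (N k : ℕ) (α : Fin N × Fin N) (i j i' j' : Fin 4) (w : Fin 4 → ℝ) :
    twoPoint N k α i j i' j' w = ∑' c : ℤ × ℤ, ∫ p : ℝ,
      Gf (p * w 1 + mom N k (α, c) 2 * w 2 + mom N k (α, c) 3 * w 3) (w 0) p (mom N k (α, c) 2)
        (mom N k (α, c) 3) i j i' j' := by
  unfold twoPoint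
  refine tsum_congr fun c => ?_
  congr 1
  funext p
  unfold Gf
  rw [Sv_sym]
  rfl

/-! ### Measurability -/

theorem meas_tn {f g : ℝ → Fin 4 → ℂ} (hf : ∀ i, Measurable fun p => f p i) (hg : ∀ i, Measurable fun p => g p i)
    (i j i' j' : Fin 4) : Measurable fun p => tn (f p) (g p) i j i' j' := by
  have hk : ∀ (P : Prop) [Decidable P] (a b : Fin 4), Measurable fun p => (if P then f p a * g p b else 0 : ℂ) := by
    intro P _ a b
    split_ifs
    · exact (hf a).mul (hg b)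
    · exact measurable_const
  unfold tn
  exact (((hk (j = j') i i').sub (hk (j = i') i j')).sub (hk (i = j') j i')).add (hk (i = i') j j')

theorem meas_rr (κ2 κ3 : ℝ) : Measurable fun p => rr p κ2 κ3 := by
  unfold rr
  fun_prop

theorem meas_Sv (κ2 κ3 : ℝ) (i : Fin 4) : Measurable fun p => Sv 1 p κ2 κ3 i := by
  have h := meas_rr κ2 κ3
  fin_cases i
  · show Measurable fun p => ((-(1 * rr p κ2 κ3) : ℝ) : ℂ)
    exact Complex.measurable_ofReal.comp ((h.const_mul 1).neg)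
  · show Measurable fun p : ℝ => Complex.I * (p : ℂ)
    exact Complex.measurable_ofReal.const_mul _
  · exact measurable_const
  · exact measurable_const

theorem meas_Gf (a b τ κ2 κ3 : ℝ) (i j i' j' : Fin 4) :
    Measurable fun p => Gf (p * a + b) τ p κ2 κ3 i j i' j' := by
  have h := meas_rr κ2 κ3
  unfold Gf
  refine Measurable.mul (Measurable.div ?_ ?_) (meas_tn (meas_Sv κ2 κ3) (fun i => (meas_Sv κ2 κ3 i).neg) i j i' j')
  · apply Complex.measurable_exp.comp
    apply Measurable.sub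
    · exact (Complex.measurable_ofReal.comp ((measurable_id.mul_const a).add_const b)).const_mul _
    · exact Complex.measurable_ofReal.comp (h.mul_const τ)
  · exact Complex.measurable_ofReal.comp (h.const_mul _)

/-! ### The limit -/

section

variable (N k : ℕ) (α : Fin N × Fin N) (i j i' j' : Fin 4) (l m : ℕ) (t z y y' : ℤ)

/-- the step function -/
def Ff (c : ℤ × ℤ) (p : ℝ) : ℂ :=
  if c ∈ Wi' l then
    (if ⌊p / (Real.pi * l / m)⌋ ∈ Finset.Ico (-(m : ℤ)) m then
      ((l / (2 * Real.pi) : ℝ) : ℂ) * tt N k l m α i j i' j' t z y y' c ⌊p / (Real.pi * l / m)⌋ else 0)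
  else 0

theorem meas_Ff (c : ℤ × ℤ) : Measurable (Ff N k α i j i' j' l m t z y y' c) := by
  unfold Ff
  by_cases hc : c ∈ Wi' l
  · simp only [hc, if_true]
    have h1 : Measurable fun a : ℤ => (if a ∈ Finset.Ico (-(m : ℤ)) m then
      ((l / (2 * Real.pi) : ℝ) : ℂ) * tt N k l m α i j i' j' t z y y' c a else 0 : ℂ) := measurable_from_top
    exact h1.comp (Int.measurable_floor.comp (measurable_id.div_const _))
  · simp only [hc, if_false]
    exact measurable_const

theorem Ff_int (hl : 0 < l) (hm : 0 < m) (c : ℤ × ℤ) :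
    ∫ p, Ff N k α i j i' j' l m t z y y' c p =
      if c ∈ Wi' l then (l : ℂ) ^ 4 * ((2 * m * l ^ 2 : ℝ) : ℂ)⁻¹ *
        ∑ a ∈ Finset.Ico (-(m : ℤ)) m, tt N k l m α i j i' j' t z y y' c a else 0 := by
  unfold Ff
  by_cases hc : c ∈ Wi' l
  · simp only [hc, if_true]
    have hl' : (0 : ℝ) < l := by exact_mod_cast hl
    have hm' : (0 : ℝ) < m := by exact_mod_cast hm
    rw [integral_step (Real.pi * l / m) (by positivity) m
      (fun a => ((l / (2 * Real.pi) : ℝ) : ℂ) * tt N k l m α i j i' j' t z y y' c a), ← Finset.mul_sum,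
      ← mul_assoc]
    congr 1
    have h1 : (l : ℂ) ≠ 0 := by exact_mod_cast hl.ne'
    have h2 : (m : ℂ) ≠ 0 := by exact_mod_cast hm.ne'
    have h3 : (Real.pi : ℂ) ≠ 0 := by exact_mod_cast Real.pi_ne_zero
    push_cast
    field_simp
  · simp only [hc, if_false, integral_zero]

theorem LS_tsum (hl : 0 < l) (hm : 0 < m) :
    (l : ℂ) ^ 4 * LS' N k l m α i j i' j' t z y y' = ∑' c, ∫ p, Ff N k α i j i' j' l m t z y y' c p := by
  rw [tsum_eq_sum (s := Wi' l)]
  · rw [LS_eq, Finset.sum_comm, ← mul_assoc, Finset.mul_sum]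
    refine Finset.sum_congr rfl fun c hc => ?_
    rw [Ff_int N k α i j i' j' l m t z y y' hl hm c, if_pos hc]
  · intro c hc
    rw [Ff_int N k α i j i' j' l m t z y y' hl hm c, if_neg hc]

/-- the bound -/
theorem Ff_bound [NeZero N] (hk : Nat.Coprime k N) (hα : α ≠ (0, 0)) {δ T : ℝ} (hδ : 0 < δ)
    (hm : l ^ 2 ≤ m) (h1 : 12 * (N : ℝ) ≤ l) (h2 : 4 * (k : ℝ) ≤ l) (h3 : T ≤ l) (h4 : (4 : ℝ) ≤ l)
    (ht1 : δ * l ≤ t) (ht2 : t ≤ T * l) (c : ℤ × ℤ) (p : ℝ) :
    ‖Ff N k α i j i' j' l m t z y y' c p‖ ≤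
      Dm (96 * Real.exp 8 * (24 / δ * Real.exp (δ / 72 * (1 + 2 * (2 * Real.pi * k))))) (δ / 72) c p := by
  have hpos : 0 ≤ Dm (96 * Real.exp 8 * (24 / δ * Real.exp (δ / 72 * (1 + 2 * (2 * Real.pi * k))))) (δ / 72) c p := by
    unfold Dm
    positivity
  unfold Ff
  by_cases hc : c ∈ Wi' l
  swap
  · rw [if_neg hc, norm_zero]; exact hpos
  rw [if_pos hc]
  by_cases ha : ⌊p / (Real.pi * l / m)⌋ ∈ Finset.Ico (-(m : ℤ)) m
  swap
  · rw [if_neg ha, norm_zero]; exact hpos
  rw [if_pos ha]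
  have hl : (0 : ℝ) < l := by linarith
  have hm' : (l : ℝ) ^ 2 ≤ m := by exact_mod_cast hm
  have hm0 : (0 : ℝ) < m := lt_of_lt_of_le (by positivity) hm'
  have hN : (0 : ℝ) < N := by exact_mod_cast NeZero.pos N
  have hpi := Real.pi_gt_three
  set h : ℝ := Real.pi * l / m with hh
  have hh0 : 0 < h := by positivity
  set a : ℤ := ⌊p / h⌋ with had
  set q : ℝ := h * a with hq
  obtain ⟨w1, w2⟩ := Wi_le hc
  have e1 : Real.pi * a / m = q / l := by
    rw [hq, hh]
    field_simp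
  have e2 : (t : ℝ) = l * (t / l) := by field_simp
  have hx1 : |q / (l : ℝ)| ≤ 3 * Real.pi / 2 := by
    rw [← e1, abs_div, abs_mul, abs_of_pos hm0, abs_of_pos Real.pi_pos, div_le_iff₀ hm0]
    have ha' := Finset.mem_Ico.1 ha
    have : |(a : ℝ)| ≤ m := by
      rw [abs_le]
      constructor
      · exact_mod_cast ha'.1
      · exact_mod_cast ha'.2.le
    nlinarith
  have hmo2 := mom2_near N k α c
  have hmo3 := mom3_near N k α c
  have hxx : ∀ (κ : ℝ) (u : ℤ), |κ - 2 * Real.pi * u| ≤ 2 * Real.pi * k → |(u : ℝ)| ≤ l / 2 →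
      |κ / (l : ℝ)| ≤ 3 * Real.pi / 2 := by
    intro κ u hu hu'
    rw [abs_div, abs_of_pos hl, div_le_iff₀ hl]
    have b1 : |κ| ≤ |κ - 2 * Real.pi * u| + |2 * Real.pi * (u : ℝ)| := by
      have := abs_add_le (κ - 2 * Real.pi * u) (2 * Real.pi * u)
      simpa using this
    have b2 : |2 * Real.pi * (u : ℝ)| ≤ Real.pi * l := by
      rw [abs_mul, abs_of_pos (by positivity)]
      nlinarith
    have b3 : 2 * Real.pi * k ≤ Real.pi * l / 2 := by nlinarith
    linarith
  have hτ : δ ≤ (t : ℝ) / l := by rw [le_div_iff₀ hl]; exact ht1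
  have hb := tmL_bound (θ := Real.pi * a * z / m + (mom N k (α, c) 2 * y + mom N k (α, c) 3 * y') / l)
    hδ (by positivity : 0 < 1 / (N : ℝ)) hl (by rw [mul_one_div, le_div_iff₀ hN]; exact h1) hx1
    (hxx _ _ hmo2 w1) (hxx _ _ hmo3 w2) (gap N k hk α hα c q) hτ
    (by rw [← e2]; nlinarith) hm' i j i' j'
  rw [← e2, ← e1] at hb
  refine hb.trans ?_
  have hfl : |q - p| ≤ 1 := by
    have f1 := Int.floor_le (p / h)
    have f2 := Int.lt_floor_add_one (p / h)
    rw [← had] at f1 f2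
    rw [le_div_iff₀ hh0] at f1
    rw [div_lt_iff₀ hh0] at f2
    have f3 : h ≤ 1 := by
      rw [hh, div_le_one hm0]
      have := Real.pi_lt_d2
      nlinarith
    rw [abs_le, hq]
    constructor <;> nlinarith
  have hqp : |p| - 1 ≤ |q| := by
    have := abs_sub_abs_le_abs_sub p q
    rw [abs_sub_comm] at this
    linarith
  have hD := to_Dm hδ (c := c) hqp hmo2 hmo3
  calc _ ≤ 96 * Real.exp 8 * Dm (24 / δ * Real.exp (δ / 72 * (1 + 2 * (2 * Real.pi * k)))) (δ / 72) c p := by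
        gcongr
    _ = _ := by unfold Dm; ring

end

theorem core (N k : ℕ) [NeZero N] (hk : Nat.Coprime k N) (α : Fin N × Fin N) (hα : α ≠ (0, 0))
    (i j i' j' : Fin 4) {δ T : ℝ} (hδ : 0 < δ) (l m : ℕ → ℕ) (t z y y' : ℕ → ℤ)
    (hl : Tendsto (fun n => (l n : ℝ)) atTop atTop) (hl0 : ∀ n, 0 < l n) (hm : ∀ n, l n ^ 2 ≤ m n)
    (ht1 : ∀ n, δ * l n ≤ t n) (ht2 : ∀ n, (t n : ℝ) ≤ T * l n) (hz : ∀ n, |(z n : ℝ)| ≤ T * l n) :
    Tendsto (fun n => (l n : ℂ) ^ 4 * LS' N k (l n) (m n) α i j i' j' (t n) (z n) (y n) (y' n) -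
      twoPoint N k α i j i' j' ![(t n : ℝ) / l n, (z n : ℝ) / l n, (y n : ℝ) / l n, (y' n : ℝ) / l n])
      atTop (𝓝 0) := by
  have hN : (0 : ℝ) < N := by exact_mod_cast NeZero.pos N
  have hlp : ∀ n, (0 : ℝ) < l n := fun n => by exact_mod_cast hl0 n
  have hmp : ∀ n, 0 < m n := fun n => lt_of_lt_of_le (pow_pos (hl0 n) 2) (hm n)
  have hm' : ∀ n, (l n : ℝ) ^ 2 ≤ m n := fun n => by exact_mod_cast hm n
  set K : ℝ := 96 * Real.exp 8 * (24 / δ * Real.exp (δ / 72 * (1 + 2 * (2 * Real.pi * k)))) with hK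
  set b : ℝ := δ / 72 with hb
  have hb0 : 0 < b := by positivity
  set F : ℕ → ℤ × ℤ → ℝ → ℂ := fun n c p => Ff N k α i j i' j' (l n) (m n) (t n) (z n) (y n) (y' n) c p with hF
  set G : ℕ → ℤ × ℤ → ℝ → ℂ := fun n c p =>
    Gf (p * ((z n : ℝ) / l n) + mom N k (α, c) 2 * ((y n : ℝ) / l n) + mom N k (α, c) 3 * ((y' n : ℝ) / l n))
      ((t n : ℝ) / l n) p (mom N k (α, c) 2) (mom N k (α, c) 3) i j i' j' with hG
  have hGm : ∀ n c, Measurable (G n c) := by
    intro n c
    have h := meas_Gf ((z n : ℝ) / l n) (mom N k (α, c) 2 * ((y n : ℝ) / l n) +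
      mom N k (α, c) 3 * ((y' n : ℝ) / l n)) ((t n : ℝ) / l n) (mom N k (α, c) 2) (mom N k (α, c) 3) i j i' j'
    have e : G n c = fun p => Gf (p * ((z n : ℝ) / l n) + (mom N k (α, c) 2 * ((y n : ℝ) / l n) +
        mom N k (α, c) 3 * ((y' n : ℝ) / l n))) ((t n : ℝ) / l n) p (mom N k (α, c) 2)
        (mom N k (α, c) 3) i j i' j' := by
      funext p
      simp only [hG]
      congr 1
      ring
    rw [e]
    exact h
  have hFm : ∀ n c, Measurable (F n c) := fun n c => meas_Ff N k α i j i' j' _ _ _ _ _ _ c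
  have hτ : ∀ n, δ ≤ (t n : ℝ) / l n := fun n => by rw [le_div_iff₀ (hlp n)]; exact ht1 n
  have hFb : ∀ᶠ n in atTop, ∀ c p, ‖F n c p‖ ≤ Dm K b c p := by
    filter_upwards [hl.eventually_ge_atTop (12 * (N : ℝ)), hl.eventually_ge_atTop (4 * (k : ℝ)),
      hl.eventually_ge_atTop T, hl.eventually_ge_atTop 4] with n n1 n2 n3 n4
    intro c p
    exact Ff_bound N k α i j i' j' (l n) (m n) (t n) (z n) (y n) (y' n) hk hα hδ (hm n) n1 n2 n3 n4
      (ht1 n) (ht2 n) c p
  have hGb : ∀ n c p, ‖G n c p‖ ≤ Dm K b c p := by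
    intro n c p
    have h1 := gap N k hk α hα c p
    have h0 : 0 < rr p (mom N k (α, c) 2) (mom N k (α, c) 3) := lt_of_lt_of_le (by positivity) h1
    have h2 := Gf_bound (θ := p * ((z n : ℝ) / l n) + mom N k (α, c) 2 * ((y n : ℝ) / l n) +
      mom N k (α, c) 3 * ((y' n : ℝ) / l n)) hδ (hτ n) h0 i j i' j'
    have hD := to_Dm hδ (q := p) (p := p) (c := c) (by linarith) (mom2_near N k α c) (mom3_near N k α c)
    refine h2.trans ?_
    calc _ ≤ 96 * Real.exp 8 * Dm (24 / δ * Real.exp (δ / 72 * (1 + 2 * (2 * Real.pi * k)))) (δ / 72) c p := by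
          gcongr
      _ = _ := by rw [hK, hb]; unfold Dm; ring
  -- the difference as one sum of integrals
  have hmain : Tendsto (fun n => ∑' c, ∫ p, (F n c p - G n c p)) atTop (𝓝 (∑' _ : ℤ × ℤ, (0 : ℂ))) := by
    refine tendsto_tsum_of_dominated_convergence (bound := fun c => 2 * ∫ p, Dm K b c p)
      ((Dm_sum hb0).mul_left 2) ?_ ?_
    · intro c
      have h0 : (0 : ℂ) = ∫ _ : ℝ, (0 : ℂ) := by simp
      rw [h0]
      refine tendsto_integral_filter_of_dominated_convergence (fun p => 2 * Dm K b c p) ?_ ?_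
        ((Dm_int hb0 c).const_mul 2) ?_
      · exact Eventually.of_forall fun n => ((hFm n c).sub (hGm n c)).aestronglyMeasurable
      · filter_upwards [hFb] with n hn
        refine Eventually.of_forall fun p => ?_
        calc _ ≤ ‖F n c p‖ + ‖G n c p‖ := norm_sub_le _ _
          _ ≤ _ := by linarith [hn c p, hGb n c p]
      · refine Eventually.of_forall fun p => ?_
        -- the pointwise limit
        set h : ℕ → ℝ := fun n => Real.pi * l n / m n with hh
        have hh0 : ∀ n, 0 < h n := by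
          intro n
          have := hlp n
          have : (0 : ℝ) < m n := by exact_mod_cast hmp n
          simp only [hh]
          positivity
        have hhle : ∀ n, h n ≤ Real.pi / l n := by
          intro n
          have h1 : (0 : ℝ) < m n := by exact_mod_cast hmp n
          simp only [hh]
          rw [div_le_div_iff₀ h1 (hlp n)]
          have := hm' n
          have := Real.pi_pos
          nlinarith
        have hht : Tendsto h atTop (𝓝 0) := by
          refine squeeze_zero (fun n => (hh0 n).le) hhle ?_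
          exact tendsto_const_nhds.div_atTop hl
        set q : ℕ → ℝ := fun n => h n * ⌊p / h n⌋ with hq
        have hqp : ∀ n, |q n - p| ≤ h n := by
          intro n
          have f1 := Int.floor_le (p / h n)
          have f2 := Int.lt_floor_add_one (p / h n)
          rw [le_div_iff₀ (hh0 n)] at f1
          rw [div_lt_iff₀ (hh0 n)] at f2
          simp only [hq]
          rw [abs_le]
          constructor <;> nlinarith [hh0 n]
        have hqt : Tendsto q atTop (𝓝 p) := by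
          rw [tendsto_iff_norm_sub_tendsto_zero]
          refine squeeze_zero (fun n => norm_nonneg _) (fun n => ?_) hht
          rw [Real.norm_eq_abs]
          exact hqp n
        have hr : 0 < rr p (mom N k (α, c) 2) (mom N k (α, c) 3) :=
          lt_of_lt_of_le (by positivity) (gap N k hk α hα c p)
        have hT0 : ∀ n, (t n : ℝ) / l n ≤ T := fun n => by rw [div_le_iff₀ (hlp n)]; exact ht2 n
        have hθ : Tendsto (fun n => (Real.pi * ⌊p / h n⌋ * z n / m n +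
            (mom N k (α, c) 2 * y n + mom N k (α, c) 3 * y' n) / l n) -
            (p * ((z n : ℝ) / l n) + mom N k (α, c) 2 * ((y n : ℝ) / l n) +
              mom N k (α, c) 3 * ((y' n : ℝ) / l n))) atTop (𝓝 0) := by
          refine squeeze_zero_norm (a := fun n => |T| * h n) (fun n => ?_) ?_
          · have h1 : (0 : ℝ) < m n := by exact_mod_cast hmp n
            have h2 := hlp n
            have e : (Real.pi * ⌊p / h n⌋ * z n / m n +
                (mom N k (α, c) 2 * y n + mom N k (α, c) 3 * y' n) / l n) -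
                (p * ((z n : ℝ) / l n) + mom N k (α, c) 2 * ((y n : ℝ) / l n) +
                mom N k (α, c) 3 * ((y' n : ℝ) / l n)) = (z n / l n) * (q n - p) := by
              have e1 : q n = Real.pi * l n / m n * ⌊p / h n⌋ := rfl
              rw [e1]
              field_simp
              ring
            rw [e, norm_mul, Real.norm_eq_abs, Real.norm_eq_abs]
            have h3 : |(z n : ℝ) / l n| ≤ |T| := by
              rw [abs_div, abs_of_pos h2, div_le_iff₀ h2]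
              exact (hz n).trans (by gcongr; exact le_abs_self T)
            exact mul_le_mul h3 (hqp n) (abs_nonneg _) (abs_nonneg _)
          · have := hht.const_mul |T|
            simpa using this
        have hpt := pt_lim (κ2 := mom N k (α, c) 2) (κ3 := mom N k (α, c) 3) hl hqt hr hθ
          (fun n => hδ.le.trans (hτ n)) hT0 hm' i j i' j'
        refine hpt.congr' ?_
        have hfloor : ∀ᶠ n in atTop, ⌊p / h n⌋ ∈ Finset.Ico (-(m n : ℤ)) (m n) := by
          filter_upwards [hl.eventually_gt_atTop (|p|)] with n hn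
          have h1 : (0 : ℝ) < m n := by exact_mod_cast hmp n
          have h2 : |p / h n| < m n := by
            rw [abs_div, abs_of_pos (hh0 n), div_lt_iff₀ (hh0 n)]
            have e : (m n : ℝ) * h n = Real.pi * l n := by simp only [hh]; field_simp
            rw [e]
            have := Real.pi_gt_three
            nlinarith [hlp n]
          rw [abs_lt] at h2
          rw [Finset.mem_Ico]
          constructor
          · rw [Int.le_floor]
            push_cast
            exact h2.1.le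
          · rw [Int.floor_lt]
            exact_mod_cast h2.2
        have hWi : ∀ᶠ n in atTop, c ∈ Wi' (l n) := by
          filter_upwards [hl.eventually_ge_atTop (2 * ((|c.1| : ℤ) + (|c.2| : ℤ)) + 4 : ℝ)] with n hn
          apply mem_Wi
          exact_mod_cast hn
        filter_upwards [hfloor, hWi] with n n1 n2
        have n1' : ⌊p / (Real.pi * l n / m n)⌋ ∈ Finset.Ico (-(m n : ℤ)) (m n) := n1
        have e2 : (l n : ℝ) * ((t n : ℝ) / l n) = t n := by
          have := hlp n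
          field_simp
        have e3 : q n / l n = Real.pi * ⌊p / h n⌋ / m n := by
          have h1 : (0 : ℝ) < m n := by exact_mod_cast hmp n
          have h2 := hlp n
          have e1 : q n = Real.pi * l n / m n * ⌊p / h n⌋ := rfl
          rw [e1]
          field_simp
        rw [e2, e3]
        simp only [hF, hG]
        unfold Ff
        rw [if_pos n2, if_pos n1']
        rfl
    · filter_upwards [hFb] with n hn
      intro c
      refine (norm_integral_le_integral_norm _).trans ?_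
      rw [← integral_const_mul]
      refine integral_mono_of_nonneg (Eventually.of_forall fun _ => norm_nonneg _) ((Dm_int hb0 c).const_mul 2)
        (Eventually.of_forall fun p => ?_)
      calc _ ≤ ‖F n c p‖ + ‖G n c p‖ := norm_sub_le _ _
        _ ≤ _ := by
          show _ ≤ 2 * Dm K b c p
          linarith [hn c p, hGb n c p]
  rw [tsum_zero] at hmain
  refine hmain.congr' ?_
  filter_upwards [hFb] with n hn
  have hFi : ∀ c, Integrable (F n c) := fun c =>
    (Dm_int hb0 c).mono' (hFm n c).aestronglyMeasurable (Eventually.of_forall fun p => hn c p)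
  have hGi : ∀ c, Integrable (G n c) := fun c =>
    (Dm_int hb0 c).mono' (hGm n c).aestronglyMeasurable (Eventually.of_forall fun p => hGb n c p)
  have hFs : Summable fun c => ∫ p, F n c p := by
    refine Summable.of_norm_bounded (Dm_sum (K := K) hb0) fun c => ?_
    refine (norm_integral_le_integral_norm _).trans ?_
    exact integral_mono_of_nonneg (Eventually.of_forall fun _ => norm_nonneg _) (Dm_int hb0 c)
      (Eventually.of_forall fun p => hn c p)
  have hGs : Summable fun c => ∫ p, G n c p := by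
    refine Summable.of_norm_bounded (Dm_sum (K := K) hb0) fun c => ?_
    refine (norm_integral_le_integral_norm _).trans ?_
    exact integral_mono_of_nonneg (Eventually.of_forall fun _ => norm_nonneg _) (Dm_int hb0 c)
      (Eventually.of_forall fun p => hGb n c p)
  rw [LS_tsum N k α i j i' j' (l n) (m n) (t n) (z n) (y n) (y' n) (hl0 n) (hmp n), twoPoint_eq]
  show _ = (∑' c, ∫ p, F n c p) - ∑' c, ∫ p, G n c p
  rw [← hFs.tsum_sub hGs]
  exact tsum_congr fun c => integral_sub (hFi c) (hGi c)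

/-- the statement K2 for the copies -/
theorem K2core : ∀ (N k : ℕ) [NeZero N], Nat.Coprime k N → ∀ α : Fin N × Fin N, α ≠ (0, 0) →
    ∀ (i j i' j' : Fin 4) (δ T ε : ℝ), 0 < δ → 0 < ε → ∃ l₁ : ℕ, ∀ (l : ℕ) [NeZero l], l₁ ≤ l →
    ∀ m : ℕ, l ^ 2 ≤ m → ∀ t z y y' : ℤ, δ * l ≤ t → t ≤ T * l → |(z : ℝ)| ≤ T * l →
    |(y : ℝ)| ≤ l → |(y' : ℝ)| ≤ l →
    ‖(l : ℂ) ^ 4 * LS' N k l m α i j i' j' t z y y' -
      twoPoint N k α i j i' j' ![(t : ℝ) / l, (z : ℝ) / l, (y : ℝ) / l, (y' : ℝ) / l]‖ ≤ ε := by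
  intro N k _ hk α hα i j i' j' δ T ε hδ hε
  by_contra hcon
  have hc : ∀ l₁ : ℕ, ∃ l : ℕ, l₁ + 1 ≤ l ∧ ∃ m : ℕ, l ^ 2 ≤ m ∧ ∃ t z y y' : ℤ, δ * l ≤ t ∧ t ≤ T * l ∧
      |(z : ℝ)| ≤ T * l ∧ ε < ‖(l : ℂ) ^ 4 * LS' N k l m α i j i' j' t z y y' -
      twoPoint N k α i j i' j' ![(t : ℝ) / l, (z : ℝ) / l, (y : ℝ) / l, (y' : ℝ) / l]‖ := by
    intro l₁
    by_contra h
    push Not at h
    exact hcon ⟨l₁ + 1, fun l _ hl m hm t z y y' h1 h2 h3 _ _ => h l hl m hm t z y y' h1 h2 h3⟩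
  choose l hl m hm t z y y' h1 h2 h3 h4 using hc
  have hlt : Tendsto (fun n => (l n : ℝ)) atTop atTop := by
    refine tendsto_natCast_atTop_atTop.comp ?_
    exact tendsto_atTop_mono (fun n => (Nat.le_succ n).trans (hl n)) tendsto_id
  have hcore := core N k hk α hα i j i' j' hδ l m t z y y' hlt (fun n => by have := hl n; omega) hm h1 h2 h3
  have hn := hcore.norm
  rw [norm_zero] at hn
  have hev := hn.eventually (gt_mem_nhds hε)
  obtain ⟨n, hn'⟩ := hev.exists
  exact absurd (h4 n) (not_lt.2 hn'.le)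

end

end Run7.h763.QW
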