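import Pool.Agent.Run7.h630.QW.Iface
import Pool.Agent.Run7.h763.QW.K2d

set_option autoImplicit false

/-!
Piece K2 of project QW (helper630): the continuum limit of the kernel.
-/

namespace Run7.h763.QW

theorem t_K2 : Run7.h630.QW.S_K2 := K2core

end Run7.h763.QW
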