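import Pool.Agent.Run7.h630.QW.Defs

set_option autoImplicit false

/-!
Piece K2 of project QW, first part: bounds of the lattice kernel in the momentum space.
-/

open MeasureTheory Filter Topology

namespace Run7.h763.QW

open Run7.h630.QF Run7.h630.QW

noncomputable section

/-- the frequency, copy of `Run7.h630.QW.ol` -/
def ol' (A : ℝ) : ℝ := 2 * Real.arsinh (Real.sqrt A / 2)

/-- the symbol of the lattice Laplacian -/
def Ax (x1 x2 x3 : ℝ) : ℝ := (2 - 2 * Real.cos x1) + ((2 - 2 * Real.cos x2) + (2 - 2 * Real.cos x3))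

def fcx (s x1 x2 x3 : ℝ) : Fin 4 → ℂ :=
  ![((Real.exp (-(s * ol' (Ax x1 x2 x3))) - 1 : ℝ) : ℂ),
    Complex.exp (Complex.I * ((x1 : ℝ) : ℂ)) - 1,
    Complex.exp (Complex.I * ((x2 : ℝ) : ℂ)) - 1,
    Complex.exp (Complex.I * ((x3 : ℝ) : ℂ)) - 1]

def fbx (s x1 x2 x3 : ℝ) : Fin 4 → ℂ :=
  ![((Real.exp (s * ol' (Ax x1 x2 x3)) - 1 : ℝ) : ℂ),
    Complex.exp (-(Complex.I * ((x1 : ℝ) : ℂ))) - 1,
    Complex.exp (-(Complex.I * ((x2 : ℝ) : ℂ))) - 1,
    Complex.exp (-(Complex.I * ((x3 : ℝ) : ℂ))) - 1]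

/-- one term of the kernel -/
def tm (θ t m x1 x2 x3 : ℝ) (i j i' j' : Fin 4) : ℂ :=
  Complex.exp (Complex.I * ((θ : ℝ) : ℂ)) *
    (((Real.exp (-(ol' (Ax x1 x2 x3) * t)) : ℝ) : ℂ) * tn (fcx 1 x1 x2 x3) (fbx 1 x1 x2 x3) i j i' j' +
      ((Real.exp (-(ol' (Ax x1 x2 x3) * (2 * m - t))) : ℝ) : ℂ) *
        tn (fcx (-1) x1 x2 x3) (fbx (-1) x1 x2 x3) i j i' j') /
    ((2 * Real.sinh (ol' (Ax x1 x2 x3)) *
      (1 - Real.exp (-(2 * m * ol' (Ax x1 x2 x3)))) : ℝ) : ℂ)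

theorem cos_low {x : ℝ} (hx : |x| ≤ 3 * Real.pi / 2) : x ^ 2 / 16 ≤ 2 - 2 * Real.cos x := by
  have hpi := Real.pi_gt_three
  have hpi' := Real.pi_lt_d2
  by_cases h : |x| ≤ Real.pi
  · have h1 := Real.cos_le_one_sub_mul_cos_sq h
    have h2 : (1 : ℝ) / 32 ≤ 2 / Real.pi ^ 2 := by
      rw [div_le_div_iff₀ (by norm_num) (by positivity)]
      nlinarith
    have h3 : 1 / 32 * x ^ 2 ≤ 2 / Real.pi ^ 2 * x ^ 2 := by gcongr
    linarith
  · push Not at h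
    have h1 : Real.cos |x| ≤ 0 :=
      Real.cos_nonpos_of_pi_div_two_le_of_le (by linarith) (by linarith)
    rw [Real.cos_abs] at h1
    have h2 : x ^ 2 ≤ (3 * Real.pi / 2) ^ 2 := by
      rw [← sq_abs x]
      gcongr
    nlinarith

theorem cos_up (x : ℝ) : 2 - 2 * Real.cos x ≤ x ^ 2 := by
  have := Real.one_sub_sq_div_two_le_cos (x := x)
  linarith

theorem ol_up (A : ℝ) : ol' A ≤ Real.sqrt A := by
  unfold ol'
  have h0 : 0 ≤ Real.sqrt A / 2 := by positivity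
  have h1 : Real.arsinh (Real.sqrt A / 2) ≤ Real.sqrt A / 2 := by
    have h2 := Real.arsinh_le_arsinh.2 (Real.self_le_sinh_iff.2 h0)
    rwa [Real.arsinh_sinh] at h2
  linarith

theorem ol_low {A : ℝ} (hA : A ≤ 16) : Real.sqrt A / 3 ≤ ol' A := by
  unfold ol'
  have h0 : 0 ≤ Real.sqrt A / 2 := by positivity
  have hv : Real.sqrt A / 2 ≤ 2 := by
    have : Real.sqrt A ≤ 4 := by
      rw [Real.sqrt_le_left (by norm_num)]
      linarith
    linarith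
  set v := Real.sqrt A / 2 with hvd
  have h1 : Real.log (1 + v) ≤ Real.arsinh v := by
    unfold Real.arsinh
    apply Real.log_le_log (by positivity)
    have : 1 ≤ Real.sqrt (1 + v ^ 2) := by
      rw [Real.one_le_sqrt]
      nlinarith [sq_nonneg v]
    linarith
  have h2 := Real.one_sub_inv_le_log_of_pos (x := 1 + v) (by positivity)
  have h3 : v / 3 ≤ 1 - (1 + v)⁻¹ := by
    have e : 1 - (1 + v)⁻¹ = v / (1 + v) := by field_simp; ring
    rw [e, div_le_div_iff₀ (by norm_num) (by positivity)]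
    nlinarith
  have h4 : Real.sqrt A = 2 * v := by rw [hvd]; ring
  rw [h4]
  linarith

/-- the length of the momentum -/
def rr (x1 x2 x3 : ℝ) : ℝ := Real.sqrt (x1 ^ 2 + x2 ^ 2 + x3 ^ 2)

theorem rr_nonneg (x1 x2 x3 : ℝ) : 0 ≤ rr x1 x2 x3 := Real.sqrt_nonneg _

theorem abs_le_rr (x1 x2 x3 : ℝ) : |x1| ≤ rr x1 x2 x3 ∧ |x2| ≤ rr x1 x2 x3 ∧ |x3| ≤ rr x1 x2 x3 := by
  unfold rr
  refine ⟨?_, ?_, ?_⟩ <;>
  · rw [← Real.sqrt_sq_eq_abs]
    apply Real.sqrt_le_sqrt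
    nlinarith [sq_nonneg x1, sq_nonneg x2, sq_nonneg x3]

theorem Ax_nonneg (x1 x2 x3 : ℝ) : 0 ≤ Ax x1 x2 x3 := by
  unfold Ax
  linarith [Real.cos_le_one x1, Real.cos_le_one x2, Real.cos_le_one x3]

theorem Ax_le (x1 x2 x3 : ℝ) : Ax x1 x2 x3 ≤ 12 := by
  unfold Ax
  linarith [Real.neg_one_le_cos x1, Real.neg_one_le_cos x2, Real.neg_one_le_cos x3]

theorem w_up (x1 x2 x3 : ℝ) : ol' (Ax x1 x2 x3) ≤ rr x1 x2 x3 := by
  refine (ol_up _).trans ?_
  unfold rr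
  apply Real.sqrt_le_sqrt
  unfold Ax
  linarith [cos_up x1, cos_up x2, cos_up x3]

theorem w_up' (x1 x2 x3 : ℝ) : ol' (Ax x1 x2 x3) ≤ 4 := by
  refine (ol_up _).trans ?_
  rw [Real.sqrt_le_left (by norm_num)]
  linarith [Ax_le x1 x2 x3]

theorem w_low {x1 x2 x3 : ℝ} (h1 : |x1| ≤ 3 * Real.pi / 2) (h2 : |x2| ≤ 3 * Real.pi / 2)
    (h3 : |x3| ≤ 3 * Real.pi / 2) : rr x1 x2 x3 / 12 ≤ ol' (Ax x1 x2 x3) := by
  refine le_trans ?_ (ol_low (by linarith [Ax_le x1 x2 x3]))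
  have h4 : rr x1 x2 x3 / 4 ≤ Real.sqrt (Ax x1 x2 x3) := by
    apply Real.le_sqrt_of_sq_le
    unfold rr Ax
    rw [div_pow, Real.sq_sqrt (by positivity)]
    linarith [cos_low h1, cos_low h2, cos_low h3]
  linarith

theorem w_nonneg (A : ℝ) : 0 ≤ ol' A := by
  unfold ol'
  have : 0 ≤ Real.arsinh (Real.sqrt A / 2) := Real.arsinh_nonneg_iff.2 (by positivity)
  linarith

theorem exp_sub_one_abs {y : ℝ} (hy : |y| ≤ 4) : |Real.exp y - 1| ≤ |y| * Real.exp 4 := by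
  have he : 1 ≤ Real.exp 4 := Real.one_le_exp (by norm_num)
  rcases le_total 0 y with h | h
  · have h1 : 0 ≤ Real.exp y - 1 := by linarith [Real.add_one_le_exp y]
    rw [abs_of_nonneg h1, abs_of_nonneg h]
    rw [abs_of_nonneg h] at hy
    have h2 := Real.add_one_le_exp (-y)
    have h3 : Real.exp y * Real.exp (-y) = 1 := by rw [← Real.exp_add]; simp
    have h4 : Real.exp y * (1 - y) ≤ 1 := by
      rw [← h3]
      apply mul_le_mul_of_nonneg_left _ (Real.exp_pos y).le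
      linarith
    have h5 : Real.exp y ≤ Real.exp 4 := Real.exp_le_exp.2 hy
    nlinarith
  · have h1 : Real.exp y - 1 ≤ 0 := by
      have := Real.exp_le_one_iff.2 h
      linarith
    rw [abs_of_nonpos h1, abs_of_nonpos h]
    have h2 := Real.add_one_le_exp y
    nlinarith

theorem fcx_bound {s : ℝ} (hs : |s| = 1) (x1 x2 x3 : ℝ) (i : Fin 4) :
    ‖fcx s x1 x2 x3 i‖ ≤ Real.exp 4 * rr x1 x2 x3 := by
  have he : 1 ≤ Real.exp 4 := Real.one_le_exp (by norm_num)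
  obtain ⟨h1, h2, h3⟩ := abs_le_rr x1 x2 x3
  have hr := rr_nonneg x1 x2 x3
  have hw := w_nonneg (Ax x1 x2 x3)
  have hk : ∀ x : ℝ, |x| ≤ rr x1 x2 x3 → ‖Complex.exp (Complex.I * ((x : ℝ) : ℂ)) - 1‖ ≤
      Real.exp 4 * rr x1 x2 x3 := by
    intro x hx
    have := Real.norm_exp_I_mul_ofReal_sub_one_le (x := x)
    rw [Real.norm_eq_abs] at this
    nlinarith
  fin_cases i
  · show ‖((Real.exp (-(s * ol' (Ax x1 x2 x3))) - 1 : ℝ) : ℂ)‖ ≤ _
    rw [Complex.norm_real, Real.norm_eq_abs]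
    have e1 : |-(s * ol' (Ax x1 x2 x3))| = ol' (Ax x1 x2 x3) := by
      rw [abs_neg, abs_mul, hs, one_mul, abs_of_nonneg hw]
    have e2 := exp_sub_one_abs (y := -(s * ol' (Ax x1 x2 x3))) (by rw [e1]; exact w_up' _ _ _)
    rw [e1] at e2
    calc _ ≤ _ := e2
      _ ≤ rr x1 x2 x3 * Real.exp 4 := by gcongr; exact w_up _ _ _
      _ = _ := mul_comm _ _
  · exact hk x1 h1
  · exact hk x2 h2
  · exact hk x3 h3

theorem fbx_bound {s : ℝ} (hs : |s| = 1) (x1 x2 x3 : ℝ) (i : Fin 4) :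
    ‖fbx s x1 x2 x3 i‖ ≤ Real.exp 4 * rr x1 x2 x3 := by
  have he : 1 ≤ Real.exp 4 := Real.one_le_exp (by norm_num)
  obtain ⟨h1, h2, h3⟩ := abs_le_rr x1 x2 x3
  have hr := rr_nonneg x1 x2 x3
  have hw := w_nonneg (Ax x1 x2 x3)
  have hk : ∀ x : ℝ, |x| ≤ rr x1 x2 x3 → ‖Complex.exp (-(Complex.I * ((x : ℝ) : ℂ))) - 1‖ ≤
      Real.exp 4 * rr x1 x2 x3 := by
    intro x hx
    have := Real.norm_exp_I_mul_ofReal_sub_one_le (x := -x)
    rw [Real.norm_eq_abs, abs_neg, Complex.ofReal_neg, mul_neg] at this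
    nlinarith
  fin_cases i
  · show ‖((Real.exp (s * ol' (Ax x1 x2 x3)) - 1 : ℝ) : ℂ)‖ ≤ _
    rw [Complex.norm_real, Real.norm_eq_abs]
    have e1 : |s * ol' (Ax x1 x2 x3)| = ol' (Ax x1 x2 x3) := by
      rw [abs_mul, hs, one_mul, abs_of_nonneg hw]
    have e2 := exp_sub_one_abs (y := s * ol' (Ax x1 x2 x3)) (by rw [e1]; exact w_up' _ _ _)
    rw [e1] at e2
    calc _ ≤ _ := e2
      _ ≤ rr x1 x2 x3 * Real.exp 4 := by gcongr; exact w_up _ _ _
      _ = _ := mul_comm _ _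
  · exact hk x1 h1
  · exact hk x2 h2
  · exact hk x3 h3

theorem tn_bound {f g : Fin 4 → ℂ} {M M' : ℝ} (hf : ∀ i, ‖f i‖ ≤ M) (hg : ∀ i, ‖g i‖ ≤ M')
    (i j i' j' : Fin 4) : ‖tn f g i j i' j'‖ ≤ 4 * (M * M') := by
  have hM : 0 ≤ M := (norm_nonneg _).trans (hf 0)
  have hM' : 0 ≤ M' := (norm_nonneg _).trans (hg 0)
  have hk : ∀ (P : Prop) [Decidable P] (a b : Fin 4), ‖(if P then f a * g b else 0 : ℂ)‖ ≤ M * M' := by
    intro P _ a b
    split_ifs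
    · rw [norm_mul]
      exact mul_le_mul (hf a) (hg b) (norm_nonneg _) hM
    · simpa using mul_nonneg hM hM'
  unfold tn
  have h1 := hk (j = j') i i'
  have h2 := hk (j = i') i j'
  have h3 := hk (i = j') j i'
  have h4 := hk (i = i') j j'
  calc _ ≤ ‖(if j = j' then f i * g i' else 0) - (if j = i' then f i * g j' else 0) -
        (if i = j' then f j * g i' else 0)‖ + ‖(if i = i' then f j * g j' else 0 : ℂ)‖ := norm_add_le _ _
    _ ≤ (‖(if j = j' then f i * g i' else 0) - (if j = i' then f i * g j' else 0)‖ +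
        ‖(if i = j' then f j * g i' else 0 : ℂ)‖) + ‖(if i = i' then f j * g j' else 0 : ℂ)‖ := by
        gcongr
        exact norm_sub_le _ _
    _ ≤ ((‖(if j = j' then f i * g i' else 0 : ℂ)‖ + ‖(if j = i' then f i * g j' else 0 : ℂ)‖) +
        ‖(if i = j' then f j * g i' else 0 : ℂ)‖) + ‖(if i = i' then f j * g j' else 0 : ℂ)‖ := by
        gcongr
        exact norm_sub_le _ _
    _ ≤ _ := by linarith

theorem tn_smul (a b : ℂ) (f g : Fin 4 → ℂ) (i j i' j' : Fin 4) :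
    tn (fun i => a * f i) (fun i => b * g i) i j i' j' = a * b * tn f g i j i' j' := by
  unfold tn
  split_ifs <;> ring

theorem tn_tendsto {ι : Type*} {𝓕 : Filter ι} {f g : ι → Fin 4 → ℂ} {f0 g0 : Fin 4 → ℂ}
    (hf : ∀ i, Tendsto (fun n => f n i) 𝓕 (𝓝 (f0 i))) (hg : ∀ i, Tendsto (fun n => g n i) 𝓕 (𝓝 (g0 i)))
    (i j i' j' : Fin 4) : Tendsto (fun n => tn (f n) (g n) i j i' j') 𝓕 (𝓝 (tn f0 g0 i j i' j')) := by
  have hk : ∀ (P : Prop) [Decidable P] (a b : Fin 4),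
      Tendsto (fun n => (if P then f n a * g n b else 0 : ℂ)) 𝓕 (𝓝 (if P then f0 a * g0 b else 0)) := by
    intro P _ a b
    split_ifs
    · exact (hf a).mul (hg b)
    · exact tendsto_const_nhds
  unfold tn
  exact (((hk (j = j') i i').sub (hk (j = i') i j')).sub (hk (i = j') j i')).add (hk (i = i') j j')

/-- the bound of a term -/
theorem tm_bound {θ t m x1 x2 x3 : ℝ} (h1 : |x1| ≤ 3 * Real.pi / 2) (h2 : |x2| ≤ 3 * Real.pi / 2)
    (h3 : |x3| ≤ 3 * Real.pi / 2) (hr : 0 < rr x1 x2 x3) (ht : 0 ≤ t) (htm : t ≤ m)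
    (hm : 12 ≤ m * rr x1 x2 x3) (i j i' j' : Fin 4) :
    ‖tm θ t m x1 x2 x3 i j i' j'‖ ≤
      96 * Real.exp 8 * rr x1 x2 x3 * Real.exp (-(rr x1 x2 x3 * t / 12)) := by
  set r := rr x1 x2 x3 with hrd
  set w := ol' (Ax x1 x2 x3) with hwd
  have hw1 : r / 12 ≤ w := w_low h1 h2 h3
  have hw0 : 0 < w := by linarith [div_pos hr (by norm_num : (0 : ℝ) < 12)]
  have hsinh : w ≤ Real.sinh w := Real.self_le_sinh_iff.2 hw0.le
  have hmr : 1 ≤ m * w := by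
    have hm0 : 0 ≤ m := ht.trans htm
    calc (1 : ℝ) ≤ m * (r / 12) := by linarith
      _ ≤ m * w := by gcongr
  have hexp : Real.exp (-(2 * m * w)) ≤ 1 / 2 := by
    have e1 : Real.exp (-(2 * m * w)) ≤ Real.exp (-1) := Real.exp_le_exp.2 (by linarith)
    have e2 : Real.exp (-1) ≤ 1 / 2 := by
      have := Real.exp_one_gt_d9
      rw [Real.exp_neg, ← one_div]
      apply one_div_le_one_div_of_le (by norm_num)
      linarith
    linarith
  have hden : w ≤ 2 * Real.sinh w * (1 - Real.exp (-(2 * m * w))) := by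
    have : 1 / 2 ≤ 1 - Real.exp (-(2 * m * w)) := by linarith
    nlinarith [Real.exp_pos (-(2 * m * w))]
  have hE1 : Real.exp (-(w * t)) ≤ Real.exp (-(r * t / 12)) := by
    apply Real.exp_le_exp.2
    nlinarith
  have hE2 : Real.exp (-(w * (2 * m - t))) ≤ Real.exp (-(r * t / 12)) := by
    apply Real.exp_le_exp.2
    nlinarith
  have ht1 := tn_bound (fcx_bound (s := 1) (by simp) x1 x2 x3) (fbx_bound (s := 1) (by simp) x1 x2 x3) i j i' j'
  have ht2 := tn_bound (fcx_bound (s := -1) (by simp) x1 x2 x3) (fbx_bound (s := -1) (by simp) x1 x2 x3) i j i' j'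
  rw [← hrd] at ht1 ht2
  have he8 : Real.exp 4 * r * (Real.exp 4 * r) = Real.exp 8 * r ^ 2 := by
    have : Real.exp 8 = Real.exp 4 * Real.exp 4 := by rw [← Real.exp_add]; norm_num
    rw [this]; ring
  rw [he8] at ht1 ht2
  unfold tm
  rw [norm_div, norm_mul]
  have hn1 : ‖Complex.exp (Complex.I * ((θ : ℝ) : ℂ))‖ = 1 := by
    rw [mul_comm, Complex.norm_exp_ofReal_mul_I]
  rw [hn1, one_mul, Complex.norm_real, Real.norm_eq_abs, abs_of_pos (by linarith)]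
  rw [div_le_iff₀ (by linarith)]
  have hnum : ‖((Real.exp (-(w * t)) : ℝ) : ℂ) * tn (fcx 1 x1 x2 x3) (fbx 1 x1 x2 x3) i j i' j' +
      ((Real.exp (-(w * (2 * m - t))) : ℝ) : ℂ) *
        tn (fcx (-1) x1 x2 x3) (fbx (-1) x1 x2 x3) i j i' j'‖ ≤
      8 * Real.exp 8 * r ^ 2 * Real.exp (-(r * t / 12)) := by
    refine (norm_add_le _ _).trans ?_
    rw [norm_mul, norm_mul, Complex.norm_real, Complex.norm_real, Real.norm_eq_abs, Real.norm_eq_abs,
      Real.abs_exp, Real.abs_exp]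
    have a1 : Real.exp (-(w * t)) * ‖tn (fcx 1 x1 x2 x3) (fbx 1 x1 x2 x3) i j i' j'‖ ≤
        Real.exp (-(r * t / 12)) * (4 * (Real.exp 8 * r ^ 2)) :=
      mul_le_mul hE1 ht1 (norm_nonneg _) (Real.exp_pos _).le
    have a2 : Real.exp (-(w * (2 * m - t))) * ‖tn (fcx (-1) x1 x2 x3) (fbx (-1) x1 x2 x3) i j i' j'‖ ≤
        Real.exp (-(r * t / 12)) * (4 * (Real.exp 8 * r ^ 2)) :=
      mul_le_mul hE2 ht2 (norm_nonneg _) (Real.exp_pos _).le
    linarith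
  refine hnum.trans ?_
  have hpos : 0 ≤ 96 * Real.exp 8 * r * Real.exp (-(r * t / 12)) := by positivity
  calc 8 * Real.exp 8 * r ^ 2 * Real.exp (-(r * t / 12)) =
        96 * Real.exp 8 * r * Real.exp (-(r * t / 12)) * (r / 12) := by ring
    _ ≤ 96 * Real.exp 8 * r * Real.exp (-(r * t / 12)) * w := by gcongr
    _ ≤ _ := by gcongr

end

end Run7.h763.QW
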