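import Pool.Agent.Run7.h763.QW.K2a

set_option autoImplicit false

/-!
Piece K2 of project QW, second part: the pointwise limit of the terms.
-/

open MeasureTheory Filter Topology

namespace Run7.h763.QW

open Run7.h630.QF Run7.h630.QW

noncomputable section

section

variable {ι : Type*} {𝓕 : Filter ι}

theorem scaled {E : Type*} [NormedAddCommGroup E] [NormedSpace ℝ E] {f : ℝ → E} {d : E}
    (hf : HasDerivAt f d 0) {L x : ι → ℝ} {a : ℝ} (hx : Tendsto x 𝓕 (𝓝 0))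
    (hL : Tendsto (fun n => L n * x n) 𝓕 (𝓝 a)) :
    Tendsto (fun n => L n • (f (x n) - f 0)) 𝓕 (𝓝 (a • d)) := by
  have h1 : Tendsto (fun n => dslope f 0 (x n)) 𝓕 (𝓝 d) := by
    have h2 : ContinuousAt (dslope f 0) 0 := continuousAt_dslope_same.2 hf.differentiableAt
    have h3 := h2.tendsto
    rw [dslope_same, hf.deriv] at h3
    exact h3.comp hx
  have h4 := hL.smul h1
  refine h4.congr fun n => ?_
  rw [mul_smul, ← sub_smul_dslope f 0 (x n), sub_zero]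

theorem lim_cos {L x : ι → ℝ} {a : ℝ} (hx : Tendsto x 𝓕 (𝓝 0))
    (hL : Tendsto (fun n => L n * x n) 𝓕 (𝓝 a)) :
    Tendsto (fun n => L n ^ 2 * (2 - 2 * Real.cos (x n))) 𝓕 (𝓝 (a ^ 2)) := by
  have hd : HasDerivAt (fun y : ℝ => 2 * Real.sin (y / 2)) 1 0 := by
    have h1 : HasDerivAt (fun y : ℝ => y / 2) (1 / 2) 0 := (hasDerivAt_id (0 : ℝ)).div_const 2
    have h2 : HasDerivAt (fun y : ℝ => 2 * Real.sin (y / 2)) (2 * (Real.cos (0 / 2) * (1 / 2))) 0 :=
      (h1.sin).const_mul 2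
    have h3 : (2 * (Real.cos (0 / 2) * (1 / 2)) : ℝ) = 1 := by norm_num
    rw [h3] at h2
    exact h2
  have h3 := (scaled hd hx hL).pow 2
  simp only [smul_eq_mul, mul_one] at h3
  refine h3.congr fun n => ?_
  have e1 : Real.cos (x n) = 1 - 2 * Real.sin (x n / 2) ^ 2 := by
    have := Real.cos_two_mul (x n / 2)
    have h5 := Real.sin_sq_add_cos_sq (x n / 2)
    have h6 : 2 * (x n / 2) = x n := by ring
    rw [h6] at this
    rw [this]
    linarith
  rw [e1]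
  simp
  ring

theorem to_zero {L x : ι → ℝ} {a : ℝ} (hL : Tendsto L 𝓕 atTop)
    (hx : Tendsto (fun n => L n * x n) 𝓕 (𝓝 a)) : Tendsto x 𝓕 (𝓝 0) := by
  have h1 := hx.div_atTop hL
  refine h1.congr' ?_
  filter_upwards [hL.eventually_gt_atTop 0] with n hn
  field_simp

theorem mul_div_lim {L q : ι → ℝ} {p : ℝ} (hL : Tendsto L 𝓕 atTop) (hq : Tendsto q 𝓕 (𝓝 p)) :
    Tendsto (fun n => L n * (q n / L n)) 𝓕 (𝓝 p) := by
  refine hq.congr' ?_
  filter_upwards [hL.eventually_gt_atTop 0] with n hn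
  field_simp

variable {L q : ι → ℝ} {p κ2 κ3 : ℝ}

theorem lim_w (hL : Tendsto L 𝓕 atTop) (hq : Tendsto q 𝓕 (𝓝 p)) :
    Tendsto (fun n => L n * ol' (Ax (q n / L n) (κ2 / L n) (κ3 / L n))) 𝓕 (𝓝 (rr p κ2 κ3)) := by
  have a1 := mul_div_lim hL hq
  have a2 := mul_div_lim hL (tendsto_const_nhds (x := κ2) (f := 𝓕))
  have a3 := mul_div_lim hL (tendsto_const_nhds (x := κ3) (f := 𝓕))
  have b1 := lim_cos (to_zero hL a1) a1
  have b2 := lim_cos (to_zero hL a2) a2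
  have b3 := lim_cos (to_zero hL a3) a3
  have c1 := (b1.add b2).add b3
  have c2 := (Real.continuous_sqrt.tendsto _).comp c1
  have c3 : Tendsto (fun n => L n * Real.sqrt (Ax (q n / L n) (κ2 / L n) (κ3 / L n))) 𝓕
      (𝓝 (rr p κ2 κ3)) := by
    refine c2.congr' ?_
    filter_upwards [hL.eventually_gt_atTop 0] with n hn
    change Real.sqrt (L n ^ 2 * (2 - 2 * Real.cos (q n / L n)) + L n ^ 2 * (2 - 2 * Real.cos (κ2 / L n)) +
        L n ^ 2 * (2 - 2 * Real.cos (κ3 / L n))) = _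
    have e1 : L n ^ 2 * (2 - 2 * Real.cos (q n / L n)) + L n ^ 2 * (2 - 2 * Real.cos (κ2 / L n)) +
        L n ^ 2 * (2 - 2 * Real.cos (κ3 / L n)) = L n ^ 2 * Ax (q n / L n) (κ2 / L n) (κ3 / L n) := by
      unfold Ax
      ring
    rw [e1, Real.sqrt_mul (by positivity), Real.sqrt_sq hn.le]
  have c4 : Tendsto (fun n => L n * (Real.sqrt (Ax (q n / L n) (κ2 / L n) (κ3 / L n)) / 2)) 𝓕
      (𝓝 (rr p κ2 κ3 / 2)) := by
    refine (c3.div_const 2).congr fun n => ?_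
    ring
  have hd : HasDerivAt Real.arsinh 1 0 := by
    have := Real.hasDerivAt_arsinh 0
    simpa using this
  have c5 := (scaled hd (to_zero hL c4) c4).const_mul 2
  simp only [smul_eq_mul, mul_one, Real.arsinh_zero, sub_zero] at c5
  have e : 2 * (rr p κ2 κ3 / 2) = rr p κ2 κ3 := by ring
  rw [e] at c5
  refine c5.congr fun n => ?_
  unfold ol'
  ring

/-- the limits of the symbols -/
def Sv (s p κ2 κ3 : ℝ) : Fin 4 → ℂ :=
  ![((-(s * rr p κ2 κ3) : ℝ) : ℂ), Complex.I * p, Complex.I * κ2, Complex.I * κ3]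

theorem lim_expI {x : ι → ℝ} {a : ℝ} (hx : Tendsto x 𝓕 (𝓝 0))
    (hLx : Tendsto (fun n => L n * x n) 𝓕 (𝓝 a)) (ε : ℝ) :
    Tendsto (fun n => (L n : ℂ) * (Complex.exp ((ε : ℂ) * (Complex.I * ((x n : ℝ) : ℂ))) - 1)) 𝓕
      (𝓝 ((a : ℂ) * (ε * Complex.I))) := by
  have hd : HasDerivAt (fun y : ℝ => Complex.exp ((ε : ℂ) * (Complex.I * (y : ℂ)))) (ε * Complex.I) 0 := by
    have h1 : HasDerivAt (fun y : ℝ => (y : ℂ)) 1 0 := Complex.ofRealCLM.hasDerivAt
    have h2 := ((h1.const_mul Complex.I).const_mul (ε : ℂ)).cexp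
    convert h2 using 1
    simp
  have h := scaled hd hx hLx
  simpa using h

theorem lim_expR {x : ι → ℝ} {a : ℝ} (hx : Tendsto x 𝓕 (𝓝 0))
    (hLx : Tendsto (fun n => L n * x n) 𝓕 (𝓝 a)) (s : ℝ) :
    Tendsto (fun n => (L n : ℂ) * ((Real.exp (s * x n) - 1 : ℝ) : ℂ)) 𝓕 (𝓝 ((s * a : ℝ) : ℂ)) := by
  have hd : HasDerivAt (fun y : ℝ => Real.exp (s * y)) s 0 := by
    have h2 := ((hasDerivAt_id (0 : ℝ)).const_mul s).exp
    simpa using h2
  have h := scaled hd hx hLx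
  simp only [mul_zero, Real.exp_zero, smul_eq_mul] at h
  have h' := (Complex.continuous_ofReal.tendsto _).comp h
  rw [mul_comm s a]
  refine h'.congr fun n => ?_
  simp

theorem lim_fcx (hL : Tendsto L 𝓕 atTop) (hq : Tendsto q 𝓕 (𝓝 p)) (s : ℝ) (i : Fin 4) :
    Tendsto (fun n => (L n : ℂ) * fcx s (q n / L n) (κ2 / L n) (κ3 / L n) i) 𝓕 (𝓝 (Sv s p κ2 κ3 i)) := by
  have a1 := mul_div_lim hL hq
  have a2 := mul_div_lim hL (tendsto_const_nhds (x := κ2) (f := 𝓕))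
  have a3 := mul_div_lim hL (tendsto_const_nhds (x := κ3) (f := 𝓕))
  have aw := lim_w (κ2 := κ2) (κ3 := κ3) hL hq
  fin_cases i
  · have h := lim_expR (to_zero hL aw) aw (-s)
    have e : (-s) * rr p κ2 κ3 = -(s * rr p κ2 κ3) := by ring
    rw [e] at h
    refine h.congr fun n => ?_
    show _ = (L n : ℂ) * ((Real.exp (-(s * ol' (Ax (q n / L n) (κ2 / L n) (κ3 / L n)))) - 1 : ℝ) : ℂ)
    rw [neg_mul]
  · have h := lim_expI (to_zero hL a1) a1 1
    simp only [Complex.ofReal_one, one_mul] at h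
    show Tendsto (fun n => (L n : ℂ) * (Complex.exp (Complex.I * ((q n / L n : ℝ) : ℂ)) - 1)) 𝓕
      (𝓝 (Complex.I * p))
    rw [mul_comm Complex.I]
    exact h
  · have h := lim_expI (to_zero hL a2) a2 1
    simp only [Complex.ofReal_one, one_mul] at h
    show Tendsto (fun n => (L n : ℂ) * (Complex.exp (Complex.I * ((κ2 / L n : ℝ) : ℂ)) - 1)) 𝓕
      (𝓝 (Complex.I * κ2))
    rw [mul_comm Complex.I]
    exact h
  · have h := lim_expI (to_zero hL a3) a3 1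
    simp only [Complex.ofReal_one, one_mul] at h
    show Tendsto (fun n => (L n : ℂ) * (Complex.exp (Complex.I * ((κ3 / L n : ℝ) : ℂ)) - 1)) 𝓕
      (𝓝 (Complex.I * κ3))
    rw [mul_comm Complex.I]
    exact h

theorem lim_fbx (hL : Tendsto L 𝓕 atTop) (hq : Tendsto q 𝓕 (𝓝 p)) (s : ℝ) (i : Fin 4) :
    Tendsto (fun n => (L n : ℂ) * fbx s (q n / L n) (κ2 / L n) (κ3 / L n) i) 𝓕 (𝓝 (-Sv s p κ2 κ3 i)) := by
  have a1 := mul_div_lim hL hq
  have a2 := mul_div_lim hL (tendsto_const_nhds (x := κ2) (f := 𝓕))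
  have a3 := mul_div_lim hL (tendsto_const_nhds (x := κ3) (f := 𝓕))
  have aw := lim_w (κ2 := κ2) (κ3 := κ3) hL hq
  fin_cases i
  · have h := lim_expR (to_zero hL aw) aw s
    show Tendsto (fun n => (L n : ℂ) * ((Real.exp (s * ol' (Ax (q n / L n) (κ2 / L n) (κ3 / L n))) - 1 : ℝ) : ℂ))
      𝓕 (𝓝 (-((-(s * rr p κ2 κ3) : ℝ) : ℂ)))
    rw [Complex.ofReal_neg, neg_neg]
    exact h
  · have h := lim_expI (to_zero hL a1) a1 (-1)
    simp only [Complex.ofReal_neg, Complex.ofReal_one, neg_mul, one_mul, mul_neg] at h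
    show Tendsto (fun n => (L n : ℂ) * (Complex.exp (-(Complex.I * ((q n / L n : ℝ) : ℂ))) - 1)) 𝓕
      (𝓝 (-(Complex.I * p)))
    rw [mul_comm Complex.I (p : ℂ)]
    exact h
  · have h := lim_expI (to_zero hL a2) a2 (-1)
    simp only [Complex.ofReal_neg, Complex.ofReal_one, neg_mul, one_mul, mul_neg] at h
    show Tendsto (fun n => (L n : ℂ) * (Complex.exp (-(Complex.I * ((κ2 / L n : ℝ) : ℂ))) - 1)) 𝓕
      (𝓝 (-(Complex.I * κ2)))
    rw [mul_comm Complex.I (κ2 : ℂ)]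
    exact h
  · have h := lim_expI (to_zero hL a3) a3 (-1)
    simp only [Complex.ofReal_neg, Complex.ofReal_one, neg_mul, one_mul, mul_neg] at h
    show Tendsto (fun n => (L n : ℂ) * (Complex.exp (-(Complex.I * ((κ3 / L n : ℝ) : ℂ))) - 1)) 𝓕
      (𝓝 (-(Complex.I * κ3)))
    rw [mul_comm Complex.I (κ3 : ℂ)]
    exact h

/-- the limit integrand -/
def Gf (θ τ p κ2 κ3 : ℝ) (i j i' j' : Fin 4) : ℂ :=
  Complex.exp (Complex.I * ((θ : ℝ) : ℂ) - ((rr p κ2 κ3 * τ : ℝ) : ℂ)) /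
    ((4 * Real.pi * rr p κ2 κ3 : ℝ) : ℂ) * tn (Sv 1 p κ2 κ3) (fun i => -Sv 1 p κ2 κ3 i) i j i' j'

theorem pt_lim (hL : Tendsto L 𝓕 atTop) (hq : Tendsto q 𝓕 (𝓝 p)) (hr : 0 < rr p κ2 κ3)
    {m θ θ' τ : ι → ℝ} {T : ℝ} (hθ : Tendsto (fun n => θ n - θ' n) 𝓕 (𝓝 0)) (hτ0 : ∀ n, 0 ≤ τ n)
    (hτ : ∀ n, τ n ≤ T) (hm : ∀ n, L n ^ 2 ≤ m n) (i j i' j' : Fin 4) :
    Tendsto (fun n => ((L n / (2 * Real.pi) : ℝ) : ℂ) *
      tm (θ n) (L n * τ n) (m n) (q n / L n) (κ2 / L n) (κ3 / L n) i j i' j' -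
        Gf (θ' n) (τ n) p κ2 κ3 i j i' j') 𝓕 (𝓝 0) := by
  set R := rr p κ2 κ3 with hR
  set w : ι → ℝ := fun n => ol' (Ax (q n / L n) (κ2 / L n) (κ3 / L n)) with hw
  have aw : Tendsto (fun n => L n * w n) 𝓕 (𝓝 R) := lim_w (κ2 := κ2) (κ3 := κ3) hL hq
  have aw0 : Tendsto w 𝓕 (𝓝 0) := to_zero hL aw
  -- the tensors
  set X : ι → ℂ := fun n => (L n : ℂ) * L n *
    tn (fcx 1 (q n / L n) (κ2 / L n) (κ3 / L n)) (fbx 1 (q n / L n) (κ2 / L n) (κ3 / L n)) i j i' j' with hX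
  set X' : ι → ℂ := fun n => (L n : ℂ) * L n *
    tn (fcx (-1) (q n / L n) (κ2 / L n) (κ3 / L n)) (fbx (-1) (q n / L n) (κ2 / L n) (κ3 / L n)) i j i' j' with hX'
  have tX : Tendsto X 𝓕 (𝓝 (tn (Sv 1 p κ2 κ3) (fun i => -Sv 1 p κ2 κ3 i) i j i' j')) := by
    have h := tn_tendsto (fun i => lim_fcx (κ2 := κ2) (κ3 := κ3) hL hq 1 i)
      (fun i => lim_fbx (κ2 := κ2) (κ3 := κ3) hL hq 1 i) i j i' j'
    refine h.congr fun n => ?_
    rw [hX]
    exact tn_smul _ _ _ _ i j i' j'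
  have tX' : Tendsto X' 𝓕 (𝓝 (tn (Sv (-1) p κ2 κ3) (fun i => -Sv (-1) p κ2 κ3 i) i j i' j')) := by
    have h := tn_tendsto (fun i => lim_fcx (κ2 := κ2) (κ3 := κ3) hL hq (-1) i)
      (fun i => lim_fbx (κ2 := κ2) (κ3 := κ3) hL hq (-1) i) i j i' j'
    refine h.congr fun n => ?_
    rw [hX']
    exact tn_smul _ _ _ _ i j i' j'
  -- the exponentials
  have hlin : Tendsto (fun n => (L n * w n) * (2 * L n - T)) 𝓕 atTop := by
    apply Tendsto.pos_mul_atTop hr aw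
    apply tendsto_atTop_add_const_right
    exact hL.const_mul_atTop (by norm_num)
  have tE : Tendsto (fun n => Real.exp (-(w n * (2 * m n - L n * τ n)))) 𝓕 (𝓝 0) := by
    apply Real.tendsto_exp_neg_atTop_nhds_zero.comp
    refine tendsto_atTop_mono' _ ?_ hlin
    filter_upwards [hL.eventually_gt_atTop 0] with n hn
    have h1 : 0 ≤ w n := w_nonneg _
    have h2 : L n * (2 * L n - T) ≤ 2 * m n - L n * τ n := by
      have := hm n
      have := mul_le_mul_of_nonneg_left (hτ n) hn.le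
      nlinarith
    calc L n * w n * (2 * L n - T) = w n * (L n * (2 * L n - T)) := by ring
      _ ≤ _ := by gcongr
  have hlin2 : Tendsto (fun n => (L n * w n) * (2 * L n)) 𝓕 atTop :=
    Tendsto.pos_mul_atTop hr aw (hL.const_mul_atTop (by norm_num))
  have tE2 : Tendsto (fun n => Real.exp (-(2 * m n * w n))) 𝓕 (𝓝 0) := by
    apply Real.tendsto_exp_neg_atTop_nhds_zero.comp
    refine tendsto_atTop_mono' _ ?_ hlin2
    filter_upwards [hL.eventually_gt_atTop 0] with n hn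
    have h1 : 0 ≤ w n := w_nonneg _
    calc L n * w n * (2 * L n) = 2 * (L n ^ 2) * w n := by ring
      _ ≤ 2 * m n * w n := by gcongr; exact hm n
  have tS : Tendsto (fun n => L n * Real.sinh (w n)) 𝓕 (𝓝 R) := by
    have hd : HasDerivAt Real.sinh 1 0 := by simpa using Real.hasDerivAt_sinh 0
    have h := scaled hd aw0 aw
    simpa using h
  set Z : ι → ℂ := fun n => ((4 * Real.pi * (L n * Real.sinh (w n)) * (1 - Real.exp (-(2 * m n * w n))) : ℝ) : ℂ)
    with hZ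
  have tZ : Tendsto Z 𝓕 (𝓝 ((4 * Real.pi * R : ℝ) : ℂ)) := by
    have h1 := (tS.const_mul (4 * Real.pi)).mul (tE2.const_sub 1)
    have h2 := (Complex.continuous_ofReal.tendsto _).comp h1
    simp only [sub_zero, mul_one] at h2
    exact h2
  have hZ0 : ((4 * Real.pi * R : ℝ) : ℂ) ≠ 0 := by
    exact_mod_cast (by positivity : (4 * Real.pi * R : ℝ) ≠ 0)
  set X0 : ℂ := tn (Sv 1 p κ2 κ3) (fun i => -Sv 1 p κ2 κ3 i) i j i' j' with hX0
  set Z0 : ℂ := ((4 * Real.pi * R : ℝ) : ℂ) with hZ0d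
  -- the three parts
  have hD1 : Tendsto (fun n => Complex.exp (Complex.I * ((θ n : ℝ) : ℂ) - ((L n * w n * τ n : ℝ) : ℂ)) *
      (X n / Z n - X0 / Z0)) 𝓕 (𝓝 0) := by
    have h1 : Tendsto (fun n => X n / Z n - X0 / Z0) 𝓕 (𝓝 0) := by
      have := (tX.div tZ hZ0).sub_const (X0 / Z0)
      simpa using this
    refine squeeze_zero_norm' (a := fun n => ‖X n / Z n - X0 / Z0‖) ?_ (by simpa using h1.norm)
    filter_upwards [hL.eventually_gt_atTop 0] with n hn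
    rw [norm_mul, Complex.norm_exp]
    have h2 : (Complex.I * ((θ n : ℝ) : ℂ) - ((L n * w n * τ n : ℝ) : ℂ)).re = -(L n * w n * τ n) := by
      rw [Complex.sub_re, Complex.I_mul_re, Complex.ofReal_im, Complex.ofReal_re]
      ring
    rw [h2]
    have h3 : Real.exp (-(L n * w n * τ n)) ≤ 1 := by
      apply Real.exp_le_one_iff.2
      have := mul_nonneg (mul_nonneg hn.le (w_nonneg (Ax (q n / L n) (κ2 / L n) (κ3 / L n)))) (hτ0 n)
      linarith
    calc _ ≤ 1 * ‖X n / Z n - X0 / Z0‖ := by gcongr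
      _ = _ := one_mul _
  have hD2 : Tendsto (fun n => Complex.exp (Complex.I * ((θ n : ℝ) : ℂ)) *
      (((Real.exp (-(w n * (2 * m n - L n * τ n))) : ℝ) : ℂ) * X' n / Z n)) 𝓕 (𝓝 0) := by
    have h1 : Tendsto (fun n => ((Real.exp (-(w n * (2 * m n - L n * τ n))) : ℝ) : ℂ) * X' n / Z n) 𝓕 (𝓝 0) := by
      have := (((Complex.continuous_ofReal.tendsto _).comp tE).mul tX').div tZ hZ0
      simp only [Complex.ofReal_zero, zero_mul, zero_div] at this
      exact this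
    refine squeeze_zero_norm (a := fun n => ‖((Real.exp (-(w n * (2 * m n - L n * τ n))) : ℝ) : ℂ) * X' n / Z n‖)
      (fun n => ?_) (by simpa using h1.norm)
    rw [norm_mul]
    have h2 : ‖Complex.exp (Complex.I * ((θ n : ℝ) : ℂ))‖ = 1 := by
      rw [mul_comm, Complex.norm_exp_ofReal_mul_I]
    rw [h2, one_mul]
  have hD3 : Tendsto (fun n => (Complex.exp (Complex.I * ((θ n : ℝ) : ℂ) - ((L n * w n * τ n : ℝ) : ℂ)) -
      Complex.exp (Complex.I * ((θ' n : ℝ) : ℂ) - ((R * τ n : ℝ) : ℂ))) * (X0 / Z0)) 𝓕 (𝓝 0) := by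
    have h1 : Tendsto (fun n => Complex.I * ((θ n - θ' n : ℝ) : ℂ) - (((L n * w n - R) * τ n : ℝ) : ℂ)) 𝓕 (𝓝 0) := by
      have a1 := ((Complex.continuous_ofReal.tendsto _).comp hθ).const_mul Complex.I
      have a2 : Tendsto (fun n => (L n * w n - R) * τ n) 𝓕 (𝓝 0) := by
        have a3 : Tendsto (fun n => L n * w n - R) 𝓕 (𝓝 0) := by
          have := aw.sub_const R
          simpa using this
        refine squeeze_zero_norm (a := fun n => ‖L n * w n - R‖ * T) (fun n => ?_) ?_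
        · rw [norm_mul]
          apply mul_le_mul_of_nonneg_left _ (norm_nonneg _)
          rw [Real.norm_eq_abs, abs_of_nonneg (hτ0 n)]
          exact hτ n
        · have := a3.norm.mul_const T
          simpa using this
      have a4 := a1.sub ((Complex.continuous_ofReal.tendsto _).comp a2)
      simpa using a4
    have h2 : Tendsto (fun n => Complex.exp (Complex.I * ((θ n - θ' n : ℝ) : ℂ) -
        (((L n * w n - R) * τ n : ℝ) : ℂ)) - 1) 𝓕 (𝓝 0) := by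
      have := ((Complex.continuous_exp.tendsto _).comp h1).sub_const 1
      simpa using this
    have h3 : Tendsto (fun n => Complex.exp (Complex.I * ((θ n : ℝ) : ℂ) - ((L n * w n * τ n : ℝ) : ℂ)) -
        Complex.exp (Complex.I * ((θ' n : ℝ) : ℂ) - ((R * τ n : ℝ) : ℂ))) 𝓕 (𝓝 0) := by
      refine squeeze_zero_norm (a := fun n => ‖Complex.exp (Complex.I * ((θ n - θ' n : ℝ) : ℂ) -
        (((L n * w n - R) * τ n : ℝ) : ℂ)) - 1‖) (fun n => ?_) (by simpa using h2.norm)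
      have e1 : Complex.exp (Complex.I * ((θ n : ℝ) : ℂ) - ((L n * w n * τ n : ℝ) : ℂ)) -
          Complex.exp (Complex.I * ((θ' n : ℝ) : ℂ) - ((R * τ n : ℝ) : ℂ)) =
          Complex.exp (Complex.I * ((θ' n : ℝ) : ℂ) - ((R * τ n : ℝ) : ℂ)) *
          (Complex.exp (Complex.I * ((θ n - θ' n : ℝ) : ℂ) - (((L n * w n - R) * τ n : ℝ) : ℂ)) - 1) := by
        rw [mul_sub, mul_one, ← Complex.exp_add]
        congr 2
        push_cast
        ring
      rw [e1, norm_mul, Complex.norm_exp]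
      have h4 : (Complex.I * ((θ' n : ℝ) : ℂ) - ((R * τ n : ℝ) : ℂ)).re = -(R * τ n) := by
        rw [Complex.sub_re, Complex.I_mul_re, Complex.ofReal_im, Complex.ofReal_re]
        ring
      rw [h4]
      have h5 : Real.exp (-(R * τ n)) ≤ 1 := by
        apply Real.exp_le_one_iff.2
        have := mul_nonneg hr.le (hτ0 n)
        linarith
      exact mul_le_of_le_one_left (norm_nonneg _) h5
    have := h3.mul_const (X0 / Z0)
    simpa using this
  have hsum := (hD1.add hD2).add hD3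
  simp only [add_zero] at hsum
  refine hsum.congr' ?_
  filter_upwards [hL.eventually_gt_atTop 0] with n hn
  have hLc : (L n : ℂ) ≠ 0 := by exact_mod_cast hn.ne'
  have hpi : (Real.pi : ℂ) ≠ 0 := by exact_mod_cast Real.pi_ne_zero
  have e1 : ((L n / (2 * Real.pi) : ℝ) : ℂ) *
      tm (θ n) (L n * τ n) (m n) (q n / L n) (κ2 / L n) (κ3 / L n) i j i' j' =
      Complex.exp (Complex.I * ((θ n : ℝ) : ℂ)) * (((Real.exp (-(L n * w n * τ n)) : ℝ) : ℂ) * X n +
        ((Real.exp (-(w n * (2 * m n - L n * τ n))) : ℝ) : ℂ) * X' n) / Z n := by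
    have e2 : w n * (L n * τ n) = L n * w n * τ n := by ring
    show ((L n / (2 * Real.pi) : ℝ) : ℂ) * (Complex.exp (Complex.I * ((θ n : ℝ) : ℂ)) *
      (((Real.exp (-(w n * (L n * τ n))) : ℝ) : ℂ) * tn (fcx 1 (q n / L n) (κ2 / L n) (κ3 / L n))
        (fbx 1 (q n / L n) (κ2 / L n) (κ3 / L n)) i j i' j' +
      ((Real.exp (-(w n * (2 * m n - L n * τ n))) : ℝ) : ℂ) *
        tn (fcx (-1) (q n / L n) (κ2 / L n) (κ3 / L n)) (fbx (-1) (q n / L n) (κ2 / L n) (κ3 / L n)) i j i' j') /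
      ((2 * Real.sinh (w n) * (1 - Real.exp (-(2 * m n * w n))) : ℝ) : ℂ)) = _
    rw [e2, hX, hX', hZ]
    beta_reduce
    generalize tn (fcx 1 (q n / L n) (κ2 / L n) (κ3 / L n))
        (fbx 1 (q n / L n) (κ2 / L n) (κ3 / L n)) i j i' j' = A1
    generalize tn (fcx (-1) (q n / L n) (κ2 / L n) (κ3 / L n))
        (fbx (-1) (q n / L n) (κ2 / L n) (κ3 / L n)) i j i' j' = A2
    generalize Real.exp (-(2 * m n * w n)) = E2
    generalize Real.exp (-(L n * w n * τ n)) = E3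
    generalize Real.exp (-(w n * (2 * m n - L n * τ n))) = E4
    generalize Real.sinh (w n) = S
    generalize Complex.exp (Complex.I * ((θ n : ℝ) : ℂ)) = E5
    push_cast
    by_cases hS : (S : ℂ) * (1 - (E2 : ℂ)) = 0
    · have h1 : (2 : ℂ) * S * (1 - E2) = 0 := by linear_combination 2 * hS
      have h2 : (4 : ℂ) * Real.pi * (L n * S) * (1 - E2) = 0 := by linear_combination 4 * Real.pi * L n * hS
      rw [h1, h2]
      simp
    · have hS1 : (S : ℂ) ≠ 0 := left_ne_zero_of_mul hS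
      have hS2 : (1 - (E2 : ℂ)) ≠ 0 := right_ne_zero_of_mul hS
      field_simp
      ring
  rw [e1]
  unfold Gf
  rw [← hR, ← hX0, ← hZ0d]
  rw [sub_eq_add_neg (Complex.I * ((θ n : ℝ) : ℂ)), Complex.exp_add]
  have e3 : Complex.exp (-((L n * w n * τ n : ℝ) : ℂ)) = ((Real.exp (-(L n * w n * τ n)) : ℝ) : ℂ) := by
    push_cast
    rfl
  rw [e3]
  ring

end

end

end Run7.h763.QW
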