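import Pool.Agent.Run7.h763.QW.K2b

set_option autoImplicit false

/-!
Piece K2 of project QW, third part: dominated convergence.
-/

open MeasureTheory Filter Topology

namespace Run7.h763.QW

open Run7.h630.QF Run7.h630.QW

noncomputable section

/-! ### Step functions -/

theorem integral_step (h : ℝ) (hh : 0 < h) (m : ℕ) (g : ℤ → ℂ) :
    ∫ p : ℝ, (if ⌊p / h⌋ ∈ Finset.Ico (-(m : ℤ)) m then g ⌊p / h⌋ else 0) =
      (h : ℂ) * ∑ a ∈ Finset.Ico (-(m : ℤ)) m, g a := by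
  have e1 : (fun p : ℝ => (if ⌊p / h⌋ ∈ Finset.Ico (-(m : ℤ)) m then g ⌊p / h⌋ else 0)) =
      fun p => ∑ a ∈ Finset.Ico (-(m : ℤ)) m, (Set.Ico (a * h) ((a + 1) * h)).indicator (fun _ => g a) p := by
    funext p
    have e2 : ∀ a : ℤ, (Set.Ico ((a : ℝ) * h) ((a + 1) * h)).indicator (fun _ => g a) p =
        if ⌊p / h⌋ = a then g a else 0 := by
      intro a
      have e3 : p ∈ Set.Ico ((a : ℝ) * h) ((a + 1) * h) ↔ ⌊p / h⌋ = a := by
        rw [Int.floor_eq_iff, Set.mem_Ico, le_div_iff₀ hh, div_lt_iff₀ hh]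
      by_cases hp : p ∈ Set.Ico ((a : ℝ) * h) ((a + 1) * h)
      · rw [Set.indicator_of_mem hp, if_pos (e3.1 hp)]
      · rw [Set.indicator_of_notMem hp, if_neg (fun e => hp (e3.2 e))]
    simp_rw [e2]
    rw [Finset.sum_ite_eq]
  rw [e1, integral_finsetSum]
  · rw [Finset.mul_sum]
    refine Finset.sum_congr rfl fun a _ => ?_
    rw [integral_indicator_const _ measurableSet_Ico]
    have : volume.real (Set.Ico ((a : ℝ) * h) ((a + 1) * h)) = h := by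
      rw [Real.volume_real_Ico_of_le (by nlinarith)]
      ring
    rw [this]
    simp
  · intro a _
    rw [integrable_indicator_iff measurableSet_Ico]
    exact integrableOn_const (by simp)

/-! ### Integrable bounds -/

theorem exp_abs_le {b : ℝ} (hb : 0 < b) (p : ℝ) :
    Real.exp (-(b * |p|)) ≤ (1 + 2 / b ^ 2) * (1 + p ^ 2)⁻¹ := by
  have h1 := Real.quadratic_le_exp_of_nonneg (x := b * |p|) (by positivity)
  have h2 : 1 + p ^ 2 ≤ (1 + 2 / b ^ 2) * Real.exp (b * |p|) := by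
    have h3 : (1 + 2 / b ^ 2) * (1 + (b * |p|) ^ 2 / 2) ≤ (1 + 2 / b ^ 2) * Real.exp (b * |p|) := by
      apply mul_le_mul_of_nonneg_left _ (by positivity)
      have : 0 ≤ b * |p| := by positivity
      linarith
    have h4 : (1 + 2 / b ^ 2) * (1 + (b * |p|) ^ 2 / 2) = 1 + p ^ 2 + (2 / b ^ 2 + b ^ 2 * p ^ 2 / 2) := by
      rw [mul_pow, sq_abs]
      field_simp
      ring
    have h5 : 0 ≤ 2 / b ^ 2 + b ^ 2 * p ^ 2 / 2 := by positivity
    linarith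
  rw [Real.exp_neg, ← div_eq_mul_inv, le_div_iff₀ (by positivity), inv_mul_le_iff₀ (Real.exp_pos _)]
  linarith

theorem integrable_exp_abs {b : ℝ} (hb : 0 < b) : Integrable fun p : ℝ => Real.exp (-(b * |p|)) := by
  refine (integrable_inv_one_add_sq.const_mul (1 + 2 / b ^ 2)).mono' (by fun_prop) ?_
  refine Eventually.of_forall fun p => ?_
  rw [Real.norm_eq_abs, Real.abs_exp]
  exact exp_abs_le hb p

theorem summable_exp_int {b : ℝ} (hb : 0 < b) : Summable fun c : ℤ => Real.exp (-(b * |(c : ℝ)|)) := by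
  have h1 : Summable fun n : ℕ => Real.exp (-(b * |((n : ℤ) : ℝ)|)) := by
    have h2 := Real.summable_exp_nat_mul_iff.2 (by linarith : -b < 0)
    refine h2.congr fun n => ?_
    congr 1
    rw [Int.cast_natCast, Nat.abs_cast]
    ring
  refine Summable.of_nat_of_neg h1 ?_
  refine h1.congr fun n => ?_
  rw [Int.cast_neg, abs_neg]

theorem summable_exp_int2 {b : ℝ} (hb : 0 < b) :
    Summable fun c : ℤ × ℤ => Real.exp (-(b * (|(c.1 : ℝ)| + |(c.2 : ℝ)|))) := by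
  have h := (summable_exp_int hb).mul_of_nonneg (summable_exp_int hb)
    (fun _ => (Real.exp_pos _).le) (fun _ => (Real.exp_pos _).le)
  refine h.congr fun c => ?_
  rw [← Real.exp_add]
  congr 1
  ring

/-- the dominating function -/
def Dm (K b : ℝ) (c : ℤ × ℤ) (p : ℝ) : ℝ := K * Real.exp (-(b * (|(c.1 : ℝ)| + |(c.2 : ℝ)|))) * Real.exp (-(b * |p|))

theorem Dm_int {K b : ℝ} (hb : 0 < b) (c : ℤ × ℤ) : Integrable (Dm K b c) :=
  (integrable_exp_abs hb).const_mul _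

theorem Dm_sum {K b : ℝ} (hb : 0 < b) : Summable fun c : ℤ × ℤ => ∫ p, Dm K b c p := by
  unfold Dm
  simp_rw [integral_const_mul]
  exact ((summable_exp_int2 hb).mul_left K).mul_right _

/-! ### The two estimates -/

theorem scale_rr {L : ℝ} (hL : 0 < L) (q κ2 κ3 : ℝ) :
    L * rr (q / L) (κ2 / L) (κ3 / L) = rr q κ2 κ3 := by
  unfold rr
  have : (q / L) ^ 2 + (κ2 / L) ^ 2 + (κ3 / L) ^ 2 = (q ^ 2 + κ2 ^ 2 + κ3 ^ 2) / L ^ 2 := by
    field_simp
  rw [this, Real.sqrt_div (by positivity), Real.sqrt_sq hL.le]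
  field_simp

theorem re_exp {δ R : ℝ} (hδ : 0 < δ) (hR : 0 ≤ R) :
    R * Real.exp (-(R * δ / 12)) ≤ 24 / δ * Real.exp (-(R * δ / 24)) := by
  have h1 : R * δ / 24 ≤ Real.exp (R * δ / 24) := by linarith [Real.add_one_le_exp (R * δ / 24)]
  have h2 : Real.exp (-(R * δ / 12)) = Real.exp (-(R * δ / 24)) * Real.exp (-(R * δ / 24)) := by
    rw [← Real.exp_add]
    congr 1
    ring
  have h3 : Real.exp (R * δ / 24) * Real.exp (-(R * δ / 24)) = 1 := by rw [← Real.exp_add]; simp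
  have h4 : R = 24 / δ * (R * δ / 24) := by field_simp
  rw [h2]
  calc R * (Real.exp (-(R * δ / 24)) * Real.exp (-(R * δ / 24))) =
        24 / δ * (R * δ / 24) * Real.exp (-(R * δ / 24)) * Real.exp (-(R * δ / 24)) := by
        rw [← h4]; ring
    _ ≤ 24 / δ * Real.exp (R * δ / 24) * Real.exp (-(R * δ / 24)) * Real.exp (-(R * δ / 24)) := by gcongr
    _ = 24 / δ * (Real.exp (R * δ / 24) * Real.exp (-(R * δ / 24))) * Real.exp (-(R * δ / 24)) := by ring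
    _ = _ := by rw [h3, mul_one]

theorem to_Dm {δ B : ℝ} (hδ : 0 < δ) {q p κ2 κ3 : ℝ} {c : ℤ × ℤ} (hq : |p| - 1 ≤ |q|)
    (h2 : |κ2 - 2 * Real.pi * c.1| ≤ B) (h3 : |κ3 - 2 * Real.pi * c.2| ≤ B) :
    rr q κ2 κ3 * Real.exp (-(rr q κ2 κ3 * δ / 12)) ≤
      Dm (24 / δ * Real.exp (δ / 72 * (1 + 2 * B))) (δ / 72) c p := by
  have hR := rr_nonneg q κ2 κ3
  refine (re_exp hδ hR).trans ?_
  obtain ⟨a1, a2, a3⟩ := abs_le_rr q κ2 κ3
  have hpi : 1 ≤ 2 * Real.pi := by linarith [Real.pi_gt_three]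
  have b2 : |(c.1 : ℝ)| - B ≤ |κ2| := by
    have e1 : |2 * Real.pi * (c.1 : ℝ)| ≤ |κ2| + |κ2 - 2 * Real.pi * c.1| := by
      have := abs_sub_abs_le_abs_sub (2 * Real.pi * (c.1 : ℝ)) κ2
      rw [abs_sub_comm] at this
      linarith
    rw [abs_mul, abs_of_pos (by linarith : 0 < 2 * Real.pi)] at e1
    have e2 : |(c.1 : ℝ)| ≤ 2 * Real.pi * |(c.1 : ℝ)| := le_mul_of_one_le_left (abs_nonneg _) hpi
    linarith
  have b3 : |(c.2 : ℝ)| - B ≤ |κ3| := by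
    have e1 : |2 * Real.pi * (c.2 : ℝ)| ≤ |κ3| + |κ3 - 2 * Real.pi * c.2| := by
      have := abs_sub_abs_le_abs_sub (2 * Real.pi * (c.2 : ℝ)) κ3
      rw [abs_sub_comm] at this
      linarith
    rw [abs_mul, abs_of_pos (by linarith : 0 < 2 * Real.pi)] at e1
    have e2 : |(c.2 : ℝ)| ≤ 2 * Real.pi * |(c.2 : ℝ)| := le_mul_of_one_le_left (abs_nonneg _) hpi
    linarith
  have h4 : |p| + |(c.1 : ℝ)| + |(c.2 : ℝ)| - (1 + 2 * B) ≤ 3 * rr q κ2 κ3 := by linarith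
  unfold Dm
  rw [mul_assoc (24 / δ), mul_assoc (24 / δ)]
  apply mul_le_mul_of_nonneg_left _ (by positivity)
  rw [← Real.exp_add, ← Real.exp_add]
  apply Real.exp_le_exp.2
  have h5 : δ / 72 * (|p| + |(c.1 : ℝ)| + |(c.2 : ℝ)| - (1 + 2 * B)) ≤ δ / 72 * (3 * rr q κ2 κ3) := by gcongr
  linarith

theorem tmL_bound {δ ω0 L θ τ m q κ2 κ3 : ℝ} (hδ : 0 < δ) (hω : 0 < ω0) (hL : 0 < L) (hL2 : 12 ≤ L * ω0)
    (h1 : |q / L| ≤ 3 * Real.pi / 2) (h2 : |κ2 / L| ≤ 3 * Real.pi / 2) (h3 : |κ3 / L| ≤ 3 * Real.pi / 2)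
    (hr : ω0 ≤ rr q κ2 κ3) (hτ : δ ≤ τ) (hτm : L * τ ≤ m) (hm : L ^ 2 ≤ m) (i j i' j' : Fin 4) :
    ‖((L / (2 * Real.pi) : ℝ) : ℂ) * tm θ (L * τ) m (q / L) (κ2 / L) (κ3 / L) i j i' j'‖ ≤
      96 * Real.exp 8 * (rr q κ2 κ3 * Real.exp (-(rr q κ2 κ3 * δ / 12))) := by
  have hsc := scale_rr hL q κ2 κ3
  set r := rr (q / L) (κ2 / L) (κ3 / L) with hrd
  have hr0 : 0 < r := by
    have : 0 < L * r := by rw [hsc]; linarith
    exact pos_of_mul_pos_right this hL.le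
  have hmr : 12 ≤ m * r := by
    calc (12 : ℝ) ≤ L * ω0 := hL2
      _ ≤ L * (L * r) := by gcongr; rw [hsc]; exact hr
      _ = L ^ 2 * r := by ring
      _ ≤ m * r := by gcongr
  have hb := tm_bound (θ := θ) h1 h2 h3 hr0 (mul_nonneg hL.le (hδ.le.trans hτ)) hτm hmr i j i' j'
  rw [norm_mul, Complex.norm_real, Real.norm_eq_abs, abs_of_pos (by positivity)]
  have hpi : L / (2 * Real.pi) ≤ L := by
    apply div_le_self hL.le
    linarith [Real.pi_gt_three]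
  have hexp : Real.exp (-(r * (L * τ) / 12)) ≤ Real.exp (-(rr q κ2 κ3 * δ / 12)) := by
    apply Real.exp_le_exp.2
    have : r * (L * τ) = rr q κ2 κ3 * τ := by rw [← hsc]; ring
    rw [this]
    have : rr q κ2 κ3 * δ ≤ rr q κ2 κ3 * τ := mul_le_mul_of_nonneg_left hτ (rr_nonneg _ _ _)
    linarith
  calc L / (2 * Real.pi) * ‖tm θ (L * τ) m (q / L) (κ2 / L) (κ3 / L) i j i' j'‖ ≤
        L * (96 * Real.exp 8 * r * Real.exp (-(r * (L * τ) / 12))) := by gcongr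
    _ ≤ L * (96 * Real.exp 8 * r * Real.exp (-(rr q κ2 κ3 * δ / 12))) := by gcongr
    _ = 96 * Real.exp 8 * ((L * r) * Real.exp (-(rr q κ2 κ3 * δ / 12))) := by ring
    _ = _ := by rw [hsc]

theorem Sv_bound (p κ2 κ3 : ℝ) (i : Fin 4) : ‖Sv 1 p κ2 κ3 i‖ ≤ rr p κ2 κ3 := by
  obtain ⟨a1, a2, a3⟩ := abs_le_rr p κ2 κ3
  have hR := rr_nonneg p κ2 κ3
  fin_cases i
  · show ‖((-(1 * rr p κ2 κ3) : ℝ) : ℂ)‖ ≤ _
    rw [Complex.norm_real, norm_neg, one_mul, Real.norm_eq_abs, abs_of_nonneg hR]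
  · show ‖Complex.I * (p : ℂ)‖ ≤ _
    rw [norm_mul, Complex.norm_I, one_mul, Complex.norm_real]
    exact a1
  · show ‖Complex.I * (κ2 : ℂ)‖ ≤ _
    rw [norm_mul, Complex.norm_I, one_mul, Complex.norm_real]
    exact a2
  · show ‖Complex.I * (κ3 : ℂ)‖ ≤ _
    rw [norm_mul, Complex.norm_I, one_mul, Complex.norm_real]
    exact a3

theorem Gf_bound {δ τ θ p κ2 κ3 : ℝ} (hδ : 0 < δ) (hτ : δ ≤ τ) (hr : 0 < rr p κ2 κ3) (i j i' j' : Fin 4) :
    ‖Gf θ τ p κ2 κ3 i j i' j'‖ ≤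
      96 * Real.exp 8 * (rr p κ2 κ3 * Real.exp (-(rr p κ2 κ3 * δ / 12))) := by
  set R := rr p κ2 κ3 with hRd
  unfold Gf
  have ht := tn_bound (Sv_bound p κ2 κ3) (g := fun i => -Sv 1 p κ2 κ3 i) (M' := R)
    (fun i => by rw [norm_neg]; exact Sv_bound p κ2 κ3 i) i j i' j'
  rw [← hRd] at ht ⊢
  rw [norm_mul, norm_div, Complex.norm_exp]
  have h4 : (Complex.I * ((θ : ℝ) : ℂ) - ((R * τ : ℝ) : ℂ)).re = -(R * τ) := by
    rw [Complex.sub_re, Complex.I_mul_re, Complex.ofReal_im, Complex.ofReal_re]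
    ring
  rw [h4, Complex.norm_real, Real.norm_eq_abs, abs_of_pos (by positivity)]
  have hexp : Real.exp (-(R * τ)) ≤ Real.exp (-(R * δ / 12)) := by
    apply Real.exp_le_exp.2
    have : R * δ ≤ R * τ := mul_le_mul_of_nonneg_left hτ hr.le
    have : 0 < R * δ := by positivity
    linarith
  have hden : Real.exp (-(R * τ)) / (4 * Real.pi * R) ≤ Real.exp (-(R * δ / 12)) / R := by
    apply div_le_div₀ (Real.exp_pos _).le hexp hr
    have : 1 ≤ 4 * Real.pi := by linarith [Real.pi_gt_three]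
    exact le_mul_of_one_le_left hr.le this
  have he : 1 ≤ Real.exp 8 := Real.one_le_exp (by norm_num)
  calc _ ≤ Real.exp (-(R * δ / 12)) / R * (4 * (R * R)) := by gcongr
    _ = 4 * (R * Real.exp (-(R * δ / 12))) := by field_simp
    _ ≤ _ := by
      apply mul_le_mul_of_nonneg_right _ (by positivity)
      linarith

end

end Run7.h763.QW
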